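import Pool.Agent.Results.MP_6659c6_co.LogUpper

set_option autoImplicit false

namespace Pool.Agent.Results.MP_6659c6_co.LogAsymptotic

open Finset

section counting

variable {X : Type} [Fintype X] [DecidableEq X]

/-- number of elements of `T` that the permutation `σ` does not send into `S` -/
def miss (S T : Finset X) (σ : Equiv.Perm X) : ℕ := (T.filter fun l => σ l ∉ S).card

/-- number of elements outside `T` that the permutation `σ` sends into `S` -/
def outHit (S T : Finset X) (σ : Equiv.Perm X) : ℕ := ((univ \ T).filter fun l => σ l ∈ S).card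

lemma miss_outHit (S T : Finset X) (σ : Equiv.Perm X) :
    miss S T σ + S.card = T.card + outHit S T σ := by
  have h1 : (T.filter fun l => σ l ∈ S).card + miss S T σ = T.card :=
    Finset.card_filter_add_card_filter_not (s := T) (fun l => σ l ∈ S)
  have h2 : (univ.filter fun l => σ l ∈ S).card = S.card := by
    apply Finset.card_bij' (fun l _ => σ l) (fun x _ => σ.symm x)
    · intro l hl; exact (mem_filter.mp hl).2
    · intro x hx; exact mem_filter.mpr ⟨mem_univ _, by simpa using hx⟩
    · intro l _; simp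
    · intro x _; simp
  have h3 : (univ.filter fun l => σ l ∈ S).card =
      (T.filter fun l => σ l ∈ S).card + outHit S T σ := by
    rw [outHit, ← card_union_of_disjoint]
    · congr 1
      ext l
      simp only [mem_filter, mem_univ, true_and, mem_union, mem_sdiff]
      tauto
    · rw [Finset.disjoint_left]
      intro l h1 h2
      exact (mem_sdiff.mp (mem_filter.mp h2).1).2 (mem_filter.mp h1).1
  omega

lemma sum_swap (S T : Finset X) (f : ℕ → ℝ) (j l : X) (hj : j ∉ T) (hl : l ∉ T) :
    ∑ σ : Equiv.Perm X, f (miss S T σ) * (if σ l ∈ S then 1 else 0) =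
      ∑ σ : Equiv.Perm X, f (miss S T σ) * (if σ j ∈ S then 1 else 0) := by
  apply Fintype.sum_equiv (Equiv.mulRight (Equiv.swap j l))
  intro σ
  have h1 : (Equiv.mulRight (Equiv.swap j l)) σ = σ * Equiv.swap j l := rfl
  rw [h1, Equiv.Perm.mul_apply, Equiv.swap_apply_left]
  have h2 : miss S T (σ * Equiv.swap j l) = miss S T σ := by
    unfold miss
    congr 1
    apply Finset.filter_congr
    intro t ht
    rw [Equiv.Perm.mul_apply, Equiv.swap_apply_of_ne_of_ne]
    · rintro rfl; exact hj ht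
    · rintro rfl; exact hl ht
  rw [h2]

lemma sum_ind (S : Finset X) (j : X) :
    (Fintype.card X : ℝ) * ∑ σ : Equiv.Perm X, (if σ j ∈ S then (1 : ℝ) else 0) =
      S.card * ((Fintype.card X).factorial : ℝ) := by
  have h1 : ∀ l : X, ∑ σ : Equiv.Perm X, (if σ l ∈ S then (1 : ℝ) else 0) =
      ∑ σ : Equiv.Perm X, (if σ j ∈ S then (1 : ℝ) else 0) := by
    intro l
    have := sum_swap S ∅ (fun _ => 1) j l (by simp) (by simp)
    simpa using this
  have h2 : ∑ l : X, ∑ σ : Equiv.Perm X, (if σ l ∈ S then (1 : ℝ) else 0) =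
      (Fintype.card X : ℝ) * ∑ σ : Equiv.Perm X, (if σ j ∈ S then (1 : ℝ) else 0) := by
    rw [Finset.sum_congr rfl (fun l _ => h1 l), Finset.sum_const, nsmul_eq_mul, card_univ]
  rw [← h2, Finset.sum_comm]
  have h3 : ∀ σ : Equiv.Perm X, ∑ l : X, (if σ l ∈ S then (1 : ℝ) else 0) = S.card := by
    intro σ
    have h := miss_outHit S ∅ σ
    have h4 : ∑ l : X, (if σ l ∈ S then (1 : ℝ) else 0) = outHit S ∅ σ := by
      rw [outHit, Finset.sum_boole]; simp
    have h5 : outHit S ∅ σ = S.card := by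
      simp [miss] at h; omega
    rw [h4, h5]
  rw [Finset.sum_congr rfl (fun σ _ => h3 σ), Finset.sum_const, nsmul_eq_mul, card_univ,
    Fintype.card_perm, mul_comm]

lemma neg_corr (S T : Finset X) (x : ℝ) (hx0 : 0 ≤ x) (hx1 : x ≤ 1) (j : X) (hj : j ∉ T) :
    (∑ σ : Equiv.Perm X, x ^ miss S T σ * (if σ j ∈ S then 1 else 0)) ≤
      ((S.card : ℝ) / Fintype.card X) * ∑ σ : Equiv.Perm X, x ^ miss S T σ := by
  set N := Fintype.card X with hN
  set F := ∑ σ : Equiv.Perm X, x ^ miss S T σ with hF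
  set G := ∑ σ : Equiv.Perm X, x ^ miss S T σ * (if σ j ∈ S then (1 : ℝ) else 0) with hG
  have hNpos : (0 : ℝ) < N := by
    have : 0 < N := Fintype.card_pos_iff.mpr ⟨j⟩
    exact_mod_cast this
  have hfac : (0 : ℝ) < (N.factorial : ℝ) := by exact_mod_cast N.factorial_pos
  have hm : (0 : ℝ) < ((univ \ T).card : ℝ) := by
    have : 0 < (univ \ T).card := card_pos.mpr ⟨j, by simp [hj]⟩
    exact_mod_cast this
  -- sums over outside points
  have h1 : ∑ σ : Equiv.Perm X, x ^ miss S T σ * (outHit S T σ : ℝ) = (univ \ T).card * G := by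
    have h2 : ∀ σ : Equiv.Perm X, x ^ miss S T σ * (outHit S T σ : ℝ) =
        ∑ l ∈ univ \ T, x ^ miss S T σ * (if σ l ∈ S then (1 : ℝ) else 0) := by
      intro σ
      rw [← Finset.mul_sum, Finset.sum_boole, outHit]
    rw [Finset.sum_congr rfl (fun σ _ => h2 σ), Finset.sum_comm]
    have h3 : ∀ l ∈ univ \ T, ∑ σ : Equiv.Perm X, x ^ miss S T σ * (if σ l ∈ S then (1 : ℝ) else 0)
        = G := by
      intro l hl
      exact sum_swap S T (fun n => x ^ n) j l hj (mem_sdiff.mp hl).2
    rw [Finset.sum_congr rfl h3, Finset.sum_const, nsmul_eq_mul]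
  have h4 : (N : ℝ) * ∑ σ : Equiv.Perm X, (outHit S T σ : ℝ) =
      (univ \ T).card * (S.card * (N.factorial : ℝ)) := by
    have h2 : ∀ σ : Equiv.Perm X, (outHit S T σ : ℝ) =
        ∑ l ∈ univ \ T, (if σ l ∈ S then (1 : ℝ) else 0) := by
      intro σ
      rw [Finset.sum_boole, outHit]
    rw [Finset.sum_congr rfl (fun σ _ => h2 σ), Finset.sum_comm, Finset.mul_sum]
    rw [Finset.sum_congr rfl (fun l _ => sum_ind S l), Finset.sum_const, nsmul_eq_mul]
  have h5 : Antivary (fun σ : Equiv.Perm X => x ^ miss S T σ)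
      (fun σ : Equiv.Perm X => (outHit S T σ : ℝ)) := by
    intro σ σ' h
    have h6 : outHit S T σ < outHit S T σ' := by
      beta_reduce at h
      exact_mod_cast h
    have h7 := miss_outHit S T σ
    have h8 := miss_outHit S T σ'
    exact pow_le_pow_of_le_one hx0 hx1 (by omega)
  have h6 := h5.card_mul_sum_le_sum_mul_sum
  rw [h1, Fintype.card_perm, ← hN, ← hF] at h6
  have h7 : ∑ σ : Equiv.Perm X, (outHit S T σ : ℝ) =
      (univ \ T).card * (S.card * (N.factorial : ℝ)) / N := by
    rw [← h4]; field_simp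
  rw [h7] at h6
  have h8 : ((N.factorial : ℝ) * (univ \ T).card) * G ≤
      ((N.factorial : ℝ) * (univ \ T).card) * ((S.card : ℝ) / N * F) := by
    calc ((N.factorial : ℝ) * (univ \ T).card) * G = N.factorial * ((univ \ T).card * G) := by ring
      _ ≤ F * ((univ \ T).card * (S.card * (N.factorial : ℝ)) / N) := h6
      _ = _ := by ring
  exact le_of_mul_le_mul_left h8 (by positivity)

lemma hoeffding (S : Finset X) (x : ℝ) (hx0 : 0 ≤ x) (hx1 : x ≤ 1) :
    ∀ T : Finset X, (∑ σ : Equiv.Perm X, x ^ miss S T σ) ≤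
      ((S.card : ℝ) / Fintype.card X + (1 - (S.card : ℝ) / Fintype.card X) * x) ^ T.card *
        ((Fintype.card X).factorial : ℝ) := by
  intro T
  induction T using Finset.induction_on with
  | empty => simp [miss, Fintype.card_perm]
  | insert j T hj ih =>
    set N := Fintype.card X with hN
    have hNpos : (0 : ℝ) < N := by
      have : 0 < N := Fintype.card_pos_iff.mpr ⟨j⟩
      exact_mod_cast this
    have hSN : (S.card : ℝ) / N ≤ 1 := by
      rw [div_le_one hNpos]; exact_mod_cast Finset.card_le_univ S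
    have hS0 : 0 ≤ (S.card : ℝ) / N := by positivity
    have h1 : ∀ σ : Equiv.Perm X, x ^ miss S (insert j T) σ =
        x * x ^ miss S T σ + (1 - x) * (x ^ miss S T σ * (if σ j ∈ S then 1 else 0)) := by
      intro σ
      by_cases h : σ j ∈ S
      · have : miss S (insert j T) σ = miss S T σ := by
          unfold miss
          rw [Finset.filter_insert, if_neg (by simpa using h)]
        rw [this, if_pos h]; ring
      · have : miss S (insert j T) σ = miss S T σ + 1 := by
          unfold miss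
          rw [Finset.filter_insert, if_pos h, card_insert_of_notMem]
          intro h'
          exact hj (mem_filter.mp h').1
        rw [this, if_neg h]; ring
    rw [Finset.sum_congr rfl (fun σ _ => h1 σ), Finset.sum_add_distrib, ← Finset.mul_sum,
      ← Finset.mul_sum, card_insert_of_notMem hj]
    have h2 := neg_corr S T x hx0 hx1 j hj
    rw [← hN] at h2
    set F := ∑ σ : Equiv.Perm X, x ^ miss S T σ with hF
    set G := ∑ σ : Equiv.Perm X, x ^ miss S T σ * (if σ j ∈ S then (1 : ℝ) else 0) with hG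
    have h3 : x * F + (1 - x) * G ≤ ((S.card : ℝ) / N + (1 - (S.card : ℝ) / N) * x) * F := by
      have := mul_le_mul_of_nonneg_left h2 (by linarith : 0 ≤ 1 - x)
      nlinarith
    refine h3.trans ?_
    have h4 : 0 ≤ (S.card : ℝ) / N + (1 - (S.card : ℝ) / N) * x := by
      have : 0 ≤ (1 - (S.card : ℝ) / N) * x := mul_nonneg (by linarith) hx0
      linarith
    calc ((S.card : ℝ) / N + (1 - (S.card : ℝ) / N) * x) * F
        ≤ ((S.card : ℝ) / N + (1 - (S.card : ℝ) / N) * x) *
          (((S.card : ℝ) / N + (1 - (S.card : ℝ) / N) * x) ^ T.card * (N.factorial : ℝ)) :=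
          mul_le_mul_of_nonneg_left ih h4
      _ = _ := by rw [pow_succ]; ring

/-- tuples of permutations for which every element of `T` is sent into `S` by some member -/
def hit (k : ℕ) (S T : Finset X) : Finset (Fin k → Equiv.Perm X) :=
  univ.filter fun σ => ∀ j ∈ T, ∃ i, σ i j ∈ S

lemma hit_card (S : Finset X) : ∀ (k : ℕ) (T : Finset X), ((hit k S T).card : ℝ) ≤
      (1 - (1 - (S.card : ℝ) / (Fintype.card X : ℝ)) ^ k) ^ T.card *
        ((Fintype.card X).factorial : ℝ) ^ k := by
  set N := Fintype.card X with hN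
  have hSN : (S.card : ℝ) / N ≤ 1 := by
    apply div_le_one_of_le₀ _ (by positivity)
    exact_mod_cast Finset.card_le_univ S
  have hS0 : 0 ≤ (S.card : ℝ) / N := by positivity
  intro k
  induction k with
  | zero =>
    intro T
    rcases T.eq_empty_or_nonempty with rfl | ⟨j, hj⟩
    · simp [hit]
    · have h1 : hit 0 S T = ∅ := by
        rw [hit, Finset.filter_eq_empty_iff]
        intro σ _ h
        obtain ⟨i, _⟩ := h j hj
        exact i.elim0
      rw [h1, card_empty]
      have h2 : 0 < T.card := card_pos.mpr ⟨j, hj⟩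
      rw [pow_zero, sub_self, zero_pow h2.ne']
      simp
  | succ k ih =>
    intro T
    have h1 : ((hit (k + 1) S T).card : ℝ) =
        ∑ π : Equiv.Perm X, ((hit k S (T.filter fun l => π l ∉ S)).card : ℝ) := by
      have h2 : ((hit (k + 1) S T).card : ℝ) = ∑ σ : Fin (k + 1) → Equiv.Perm X,
          (if (∀ j ∈ T, ∃ i, σ i j ∈ S) then (1 : ℝ) else 0) := by
        rw [hit, Finset.sum_boole]
      rw [h2, ← (Fin.consEquiv (fun _ : Fin (k + 1) => Equiv.Perm X)).sum_comp,
        Fintype.sum_prod_type]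
      apply Finset.sum_congr rfl
      intro π _
      rw [hit, ← Finset.sum_boole]
      apply Finset.sum_congr rfl
      intro σ _
      congr 1
      rw [eq_iff_iff]
      constructor
      · intro h j hj
        obtain ⟨hj1, hj2⟩ := mem_filter.mp hj
        obtain ⟨i, hi⟩ := h j hj1
        refine Fin.cases ?_ ?_ i hi
        · intro h0; exact absurd h0 hj2
        · intro i' h'; exact ⟨i', h'⟩
      · intro h j hj
        by_cases h0 : π j ∈ S
        · exact ⟨0, h0⟩
        · obtain ⟨i, hi⟩ := h j (mem_filter.mpr ⟨hj, h0⟩)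
          exact ⟨i.succ, hi⟩
    rw [h1]
    have hy0 : 0 ≤ 1 - (S.card : ℝ) / (N : ℝ) := by linarith
    have hy1 : 1 - (S.card : ℝ) / (N : ℝ) ≤ 1 := by linarith
    set q := 1 - (1 - (S.card : ℝ) / (N : ℝ)) ^ k with hq
    have hq0 : 0 ≤ q := by rw [hq, sub_nonneg]; exact pow_le_one₀ hy0 hy1
    have hq1 : q ≤ 1 := by
      have : 0 ≤ (1 - (S.card : ℝ) / (N : ℝ)) ^ k := pow_nonneg hy0 k
      linarith
    calc ∑ π : Equiv.Perm X, ((hit k S (T.filter fun l => π l ∉ S)).card : ℝ)
        ≤ ∑ π : Equiv.Perm X, (q ^ miss S T π * (N.factorial : ℝ) ^ k) :=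
          Finset.sum_le_sum fun π _ => ih _
      _ = (∑ π : Equiv.Perm X, q ^ miss S T π) * (N.factorial : ℝ) ^ k := by
          rw [Finset.sum_mul]
      _ ≤ (((S.card : ℝ) / N + (1 - (S.card : ℝ) / N) * q) ^ T.card * (N.factorial : ℝ)) *
          (N.factorial : ℝ) ^ k :=
          mul_le_mul_of_nonneg_right (hoeffding S q hq0 hq1 T) (by positivity)
      _ = _ := by
          have : (S.card : ℝ) / N + (1 - (S.card : ℝ) / N) * q =
              1 - (1 - (S.card : ℝ) / N) ^ (k + 1) := by
            rw [hq, pow_succ]; ring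
          rw [this, pow_succ]; ring

/-- tuples for which some `s`-set is hit from everywhere -/
def bad (k s : ℕ) (c : Equiv.Perm X) : Finset (Fin k → Equiv.Perm X) :=
  univ.filter fun σ => ∃ S : Finset X, S.card = s ∧ ∀ j, j ∈ S ∨ c j ∈ S ∨ ∃ i, σ i j ∈ S

lemma bad_card (k s : ℕ) (c : Equiv.Perm X) (hs : s ≤ Fintype.card X) :
    ((bad k s c).card : ℝ) ≤ ((Fintype.card X).choose s : ℝ) *
      ((1 - (1 - (s : ℝ) / (Fintype.card X : ℝ)) ^ k) ^ (Fintype.card X - 2 * s) *
        ((Fintype.card X).factorial : ℝ) ^ k) := by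
  classical
  set N := Fintype.card X with hN
  have hsub : bad k s c ⊆ (powersetCard s (univ : Finset X)).biUnion fun S =>
      hit k S (univ.filter fun j => j ∉ S ∧ c j ∉ S) := by
    intro σ hσ
    obtain ⟨S, hS, h⟩ := (mem_filter.mp hσ).2
    rw [mem_biUnion]
    refine ⟨S, mem_powersetCard.mpr ⟨subset_univ _, hS⟩, ?_⟩
    refine mem_filter.mpr ⟨mem_univ _, ?_⟩
    intro j hj
    obtain ⟨h1, h2⟩ := (mem_filter.mp hj).2
    rcases h j with h3 | h3 | h3
    · exact absurd h3 h1
    · exact absurd h3 h2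
    · exact h3
  have h1 : ((bad k s c).card : ℝ) ≤ ∑ S ∈ powersetCard s (univ : Finset X),
      ((hit k S (univ.filter fun j => j ∉ S ∧ c j ∉ S)).card : ℝ) := by
    have := (card_le_card hsub).trans card_biUnion_le
    exact_mod_cast this
  refine h1.trans ?_
  have hSN : (s : ℝ) / N ≤ 1 := by
    apply div_le_one_of_le₀ _ (by positivity)
    exact_mod_cast hs
  have hS0 : 0 ≤ (s : ℝ) / N := by positivity
  calc ∑ S ∈ powersetCard s (univ : Finset X),
        ((hit k S (univ.filter fun j => j ∉ S ∧ c j ∉ S)).card : ℝ)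
      ≤ ∑ _S ∈ powersetCard s (univ : Finset X),
        ((1 - (1 - (s : ℝ) / (N : ℝ)) ^ k) ^ (N - 2 * s) * (N.factorial : ℝ) ^ k) := by
        apply Finset.sum_le_sum
        intro S hS
        have hSc := (mem_powersetCard.mp hS).2
        have h2 := hit_card S k (univ.filter fun j => j ∉ S ∧ c j ∉ S)
        rw [hSc, ← hN] at h2
        refine h2.trans ?_
        apply mul_le_mul_of_nonneg_right _ (by positivity)
        apply pow_le_pow_of_le_one
        · rw [sub_nonneg]; exact pow_le_one₀ (by linarith) (by linarith)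
        · have : 0 ≤ (1 - (s : ℝ) / (N : ℝ)) ^ k := pow_nonneg (by linarith) k
          linarith
        · have h2 : (univ.filter fun j => j ∉ S ∧ c j ∉ S) =
              univ \ (S ∪ S.image c.symm) := by
            ext j
            simp only [mem_filter, mem_univ, true_and, mem_sdiff, mem_union, mem_image, not_or]
            constructor
            · rintro ⟨a, b⟩
              refine ⟨a, ?_⟩
              rintro ⟨x, hx, rfl⟩
              rw [Equiv.apply_symm_apply] at b
              exact b hx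
            · rintro ⟨a, b⟩
              exact ⟨a, fun h => b ⟨c j, h, by simp⟩⟩
          rw [h2, card_sdiff_of_subset (subset_univ _), card_univ]
          have h3 : (S ∪ S.image c.symm).card ≤ 2 * s := by
            calc (S ∪ S.image c.symm).card ≤ S.card + (S.image c.symm).card := card_union_le _ _
              _ ≤ S.card + S.card := Nat.add_le_add_left card_image_le _
              _ = 2 * s := by omega
          omega
    _ = _ := by rw [sum_const, card_powersetCard, card_univ, nsmul_eq_mul]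

/-- version for the inverse permutations -/
lemma bad_inv_card (k s : ℕ) (c : Equiv.Perm X) :
    (univ.filter fun σ : Fin k → Equiv.Perm X => (fun i => (σ i)⁻¹) ∈ bad k s c).card =
      (bad k s c).card := by
  refine Finset.card_bij' (fun σ _ => fun i => (σ i)⁻¹) (fun σ _ => fun i => (σ i)⁻¹)
    ?_ ?_ ?_ ?_
  · intro σ hσ; exact (mem_filter.mp hσ).2
  · intro σ hσ
    refine mem_filter.mpr ⟨mem_univ _, ?_⟩
    simpa using hσ
  · intro σ _; simp
  · intro σ _; simp

end counting

section coll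

variable {X : Type} [Fintype X] [DecidableEq X]

lemma card_image_ge {ι Y : Type} [Fintype ι] [DecidableEq ι] [DecidableEq Y] (f : ι → Y) :
    Fintype.card ι ≤ (univ.image f).card +
      ((univ : Finset (ι × ι)).filter fun p => p.1 ≠ p.2 ∧ f p.1 = f p.2).card := by
  have h1 := Finset.card_filter_add_card_filter_not (s := (univ : Finset ι))
    (fun a => ∀ b, b ≠ a → f b ≠ f a)
  have h2 : (univ.filter fun a => ∀ b, b ≠ a → f b ≠ f a).card ≤ (univ.image f).card := by
    apply card_le_card_of_injOn f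
    · intro a _; simp
    · intro a ha b hb hab
      by_contra h
      exact (mem_filter.mp ha).2 b (Ne.symm h) hab.symm
  have h3 : (univ.filter fun a => ¬ ∀ b, b ≠ a → f b ≠ f a).card ≤
      ((univ : Finset (ι × ι)).filter fun p => p.1 ≠ p.2 ∧ f p.1 = f p.2).card := by
    have h4 : (univ.filter fun a => ¬ ∀ b, b ≠ a → f b ≠ f a) ⊆
        ((univ : Finset (ι × ι)).filter fun p => p.1 ≠ p.2 ∧ f p.1 = f p.2).image Prod.fst := by
      intro a ha
      have h5 := (mem_filter.mp ha).2
      push Not at h5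
      obtain ⟨b, hb, hab⟩ := h5
      exact mem_image.mpr ⟨(a, b), mem_filter.mpr ⟨mem_univ _, hb.symm, hab.symm⟩, rfl⟩
    exact (card_le_card h4).trans card_image_le
  rw [card_univ] at h1
  omega

/-- the family of permutations: identity, `c` and the `σ i` -/
def fam (k : ℕ) (c : Equiv.Perm X) (σ : Fin k → Equiv.Perm X) :
    Option (Option (Fin k)) → Equiv.Perm X
  | none => 1
  | some none => c
  | some (some i) => σ i

lemma coll_one (k : ℕ) (i : Fin k) (g : (Fin k → Equiv.Perm X) → X)
    (hg : ∀ σ π, g (Function.update σ i π) = g σ) (j : X) :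
    Fintype.card X * (univ.filter fun σ : Fin k → Equiv.Perm X => σ i j = g σ).card =
      (Fintype.card X).factorial ^ k := by
  have h1 : ∀ l : X, (univ.filter fun σ : Fin k → Equiv.Perm X => σ i l = g σ).card =
      (univ.filter fun σ : Fin k → Equiv.Perm X => σ i j = g σ).card := by
    intro l
    refine Finset.card_bij' (fun σ _ => Function.update σ i (σ i * Equiv.swap j l))
      (fun σ _ => Function.update σ i (σ i * Equiv.swap j l)) ?_ ?_ ?_ ?_
    · intro σ hσ
      refine mem_filter.mpr ⟨mem_univ _, ?_⟩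
      rw [hg, Function.update_self, Equiv.Perm.mul_apply, Equiv.swap_apply_left]
      exact (mem_filter.mp hσ).2
    · intro σ hσ
      refine mem_filter.mpr ⟨mem_univ _, ?_⟩
      rw [hg, Function.update_self, Equiv.Perm.mul_apply, Equiv.swap_apply_right]
      exact (mem_filter.mp hσ).2
    · intro σ _
      simp [mul_assoc, Function.update_eq_self]
    · intro σ _
      simp [mul_assoc, Function.update_eq_self]
  have h2 : ∑ l : X, (univ.filter fun σ : Fin k → Equiv.Perm X => σ i l = g σ).card =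
      Fintype.card X * (univ.filter fun σ : Fin k → Equiv.Perm X => σ i j = g σ).card := by
    rw [Finset.sum_congr rfl (fun l _ => h1 l), Finset.sum_const, smul_eq_mul, card_univ]
  rw [← h2]
  simp_rw [Finset.card_filter]
  rw [Finset.sum_comm]
  have h3 : ∀ σ : Fin k → Equiv.Perm X, (∑ l : X, if σ i l = g σ then 1 else 0) = 1 := by
    intro σ
    rw [Finset.sum_eq_single ((σ i).symm (g σ))]
    · simp
    · intro l _ hl
      rw [if_neg]
      intro h
      apply hl
      rw [← h]; simp
    · simp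
  rw [Finset.sum_congr rfl (fun σ _ => h3 σ), Finset.sum_const, smul_eq_mul, mul_one, card_univ,
    Fintype.card_fun, Fintype.card_perm, Fintype.card_fin]

lemma coll_pair (k : ℕ) (c : Equiv.Perm X) (hc : ∀ j, c j ≠ j) (a b : Option (Option (Fin k)))
    (hab : a ≠ b) :
    ∑ j : X, (univ.filter fun σ : Fin k → Equiv.Perm X => fam k c σ a j = fam k c σ b j).card ≤
      (Fintype.card X).factorial ^ k := by
  have key : ∀ (i : Fin k) (b : Option (Option (Fin k))), some (some i) ≠ b →
      ∑ j : X, (univ.filter fun σ : Fin k → Equiv.Perm X => σ i j = fam k c σ b j).card ≤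
      (Fintype.card X).factorial ^ k := by
    intro i b hib
    rcases isEmpty_or_nonempty X with hX | hX
    · simp only [univ_eq_empty, sum_empty]; positivity
    have hN : 0 < Fintype.card X := Fintype.card_pos
    have h1 : ∀ j : X, Fintype.card X *
        (univ.filter fun σ : Fin k → Equiv.Perm X => σ i j = fam k c σ b j).card =
        (Fintype.card X).factorial ^ k := by
      intro j
      apply coll_one k i (fun σ => fam k c σ b j)
      intro σ π
      rcases b with _ | _ | i'
      · rfl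
      · rfl
      · show (Function.update σ i π) i' j = σ i' j
        rw [Function.update_of_ne]
        rintro rfl; exact hib rfl
    apply le_of_mul_le_mul_left _ hN
    rw [Finset.mul_sum, Finset.sum_congr rfl (fun j _ => h1 j), Finset.sum_const, smul_eq_mul,
      card_univ]
  rcases a with _ | _ | i
  · rcases b with _ | _ | i'
    · exact absurd rfl hab
    · have : ∀ j : X, (univ.filter fun σ : Fin k → Equiv.Perm X =>
          fam k c σ none j = fam k c σ (some none) j) = ∅ := by
        intro j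
        rw [Finset.filter_eq_empty_iff]
        intro σ _ h
        exact hc j h.symm
      rw [Finset.sum_congr rfl (fun j _ => by rw [this j, card_empty]), Finset.sum_const_zero]
      positivity
    · have h := key i' none (by simp)
      refine le_trans (le_of_eq ?_) h
      apply Finset.sum_congr rfl
      intro j _
      congr 1
      apply Finset.filter_congr
      intro σ _
      exact eq_comm
  · rcases b with _ | _ | i'
    · have : ∀ j : X, (univ.filter fun σ : Fin k → Equiv.Perm X =>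
          fam k c σ (some none) j = fam k c σ none j) = ∅ := by
        intro j
        rw [Finset.filter_eq_empty_iff]
        intro σ _ h
        exact hc j h
      rw [Finset.sum_congr rfl (fun j _ => by rw [this j, card_empty]), Finset.sum_const_zero]
      positivity
    · exact absurd rfl hab
    · have h := key i' (some none) (by simp)
      refine le_trans (le_of_eq ?_) h
      apply Finset.sum_congr rfl
      intro j _
      congr 1
      apply Finset.filter_congr
      intro σ _
      exact eq_comm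
  · exact key i b hab

/-- number of collisions -/
def coll (k : ℕ) (c : Equiv.Perm X) (σ : Fin k → Equiv.Perm X) : ℕ :=
  ∑ j : X, ((univ : Finset (Option (Option (Fin k)) × Option (Option (Fin k)))).filter
    fun p => p.1 ≠ p.2 ∧ fam k c σ p.1 j = fam k c σ p.2 j).card

lemma sum_coll (k : ℕ) (c : Equiv.Perm X) (hc : ∀ j, c j ≠ j) :
    ∑ σ : Fin k → Equiv.Perm X, coll k c σ ≤ (k + 2) ^ 2 * (Fintype.card X).factorial ^ k := by
  have h1 : ∑ σ : Fin k → Equiv.Perm X, coll k c σ =
      ∑ p : Option (Option (Fin k)) × Option (Option (Fin k)), ∑ j : X,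
        (univ.filter fun σ : Fin k → Equiv.Perm X =>
          p.1 ≠ p.2 ∧ fam k c σ p.1 j = fam k c σ p.2 j).card := by
    unfold coll
    simp_rw [Finset.card_filter]
    rw [Finset.sum_comm]
    rw [Finset.sum_congr rfl (fun j _ => Finset.sum_comm)]
    exact Finset.sum_comm
  rw [h1]
  have h2 : ∀ p : Option (Option (Fin k)) × Option (Option (Fin k)), ∑ j : X,
        (univ.filter fun σ : Fin k → Equiv.Perm X =>
          p.1 ≠ p.2 ∧ fam k c σ p.1 j = fam k c σ p.2 j).card ≤
        (Fintype.card X).factorial ^ k := by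
    intro p
    by_cases hp : p.1 = p.2
    · have : ∀ j : X, (univ.filter fun σ : Fin k → Equiv.Perm X =>
          p.1 ≠ p.2 ∧ fam k c σ p.1 j = fam k c σ p.2 j) = ∅ := by
        intro j
        rw [Finset.filter_eq_empty_iff]
        intro σ _ h
        exact h.1 hp
      rw [Finset.sum_congr rfl (fun j _ => by rw [this j, card_empty]), Finset.sum_const_zero]
      positivity
    · refine le_trans (le_of_eq ?_) (coll_pair k c hc p.1 p.2 hp)
      apply Finset.sum_congr rfl
      intro j _
      congr 1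
      apply Finset.filter_congr
      intro σ _
      exact ⟨fun h => h.2, fun h => ⟨hp, h⟩⟩
  refine (Finset.sum_le_sum fun p _ => h2 p).trans ?_
  rw [Finset.sum_const, smul_eq_mul, card_univ, Fintype.card_prod, Fintype.card_option,
    Fintype.card_option, Fintype.card_fin, sq]

lemma exists_good (k s : ℕ) (c : Equiv.Perm X) (hc : ∀ j, c j ≠ j) (hs : s ≤ Fintype.card X)
    (hb : ((Fintype.card X).choose s : ℝ) *
      (1 - (1 - (s : ℝ) / (Fintype.card X : ℝ)) ^ k) ^ (Fintype.card X - 2 * s) ≤ 1 / 8) :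
    ∃ σ : Fin k → Equiv.Perm X, σ ∉ bad k s c ∧ (fun i => (σ i)⁻¹) ∉ bad k s c⁻¹ ∧
      coll k c σ < 4 * (k + 2) ^ 2 := by
  by_contra hcon
  push Not at hcon
  set F : ℝ := ((Fintype.card X).factorial : ℝ) ^ k with hF
  have hFpos : 0 < F := by
    have : (0 : ℝ) < ((Fintype.card X).factorial : ℝ) := by
      exact_mod_cast (Fintype.card X).factorial_pos
    positivity
  have hb1 : ((bad k s c).card : ℝ) ≤ 1 / 8 * F := by
    have := bad_card k s c hs
    calc ((bad k s c).card : ℝ) ≤ _ := this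
      _ = (((Fintype.card X).choose s : ℝ) *
      (1 - (1 - (s : ℝ) / (Fintype.card X : ℝ)) ^ k) ^ (Fintype.card X - 2 * s)) * F := by
        rw [hF]; ring
      _ ≤ _ := mul_le_mul_of_nonneg_right hb hFpos.le
  have hb2 : ((univ.filter fun σ : Fin k → Equiv.Perm X =>
      (fun i => (σ i)⁻¹) ∈ bad k s c⁻¹).card : ℝ) ≤ 1 / 8 * F := by
    rw [bad_inv_card]
    have := bad_card k s c⁻¹ hs
    calc ((bad k s c⁻¹).card : ℝ) ≤ _ := this
      _ = (((Fintype.card X).choose s : ℝ) *
      (1 - (1 - (s : ℝ) / (Fintype.card X : ℝ)) ^ k) ^ (Fintype.card X - 2 * s)) * F := by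
        rw [hF]; ring
      _ ≤ _ := mul_le_mul_of_nonneg_right hb hFpos.le
  set B3 := univ.filter fun σ : Fin k → Equiv.Perm X => 4 * (k + 2) ^ 2 ≤ coll k c σ with hB3
  have hb3 : (B3.card : ℝ) ≤ 1 / 4 * F := by
    have h1 : B3.card * (4 * (k + 2) ^ 2) ≤ ∑ σ : Fin k → Equiv.Perm X, coll k c σ := by
      calc B3.card * (4 * (k + 2) ^ 2) = ∑ _σ ∈ B3, (4 * (k + 2) ^ 2) := by
            rw [Finset.sum_const, smul_eq_mul]
        _ ≤ ∑ σ ∈ B3, coll k c σ := Finset.sum_le_sum fun σ hσ => (mem_filter.mp hσ).2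
        _ ≤ _ := Finset.sum_le_sum_of_subset (subset_univ _)
    have h2 := h1.trans (sum_coll k c hc)
    have h3 : ((B3.card : ℝ) * (4 * ((k : ℝ) + 2) ^ 2)) ≤ ((k : ℝ) + 2) ^ 2 * F := by
      rw [hF]; exact_mod_cast h2
    have h4 : (0 : ℝ) < ((k : ℝ) + 2) ^ 2 := by positivity
    nlinarith
  have hall : (univ : Finset (Fin k → Equiv.Perm X)) ⊆ (bad k s c ∪
      (univ.filter fun σ : Fin k → Equiv.Perm X => (fun i => (σ i)⁻¹) ∈ bad k s c⁻¹)) ∪ B3 := by
    intro σ _
    rw [mem_union, mem_union]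
    by_cases h1 : σ ∈ bad k s c
    · exact Or.inl (Or.inl h1)
    · by_cases h2 : (fun i => (σ i)⁻¹) ∈ bad k s c⁻¹
      · exact Or.inl (Or.inr (mem_filter.mpr ⟨mem_univ _, h2⟩))
      · exact Or.inr (mem_filter.mpr ⟨mem_univ _, hcon σ h1 h2⟩)
  have hcard := card_le_card hall
  have h5 := hcard.trans ((card_union_le _ _).trans (Nat.add_le_add_right (card_union_le _ _) _))
  rw [card_univ, Fintype.card_fun, Fintype.card_perm, Fintype.card_fin] at h5
  have h6 : F ≤ ((bad k s c).card : ℝ) + ((univ.filter fun σ : Fin k → Equiv.Perm X =>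
      (fun i => (σ i)⁻¹) ∈ bad k s c⁻¹).card : ℝ) + (B3.card : ℝ) := by
    rw [hF]; exact_mod_cast h5
  linarith

end coll

section graph

variable {X : Type} [Fintype X] [DecidableEq X]

/-- the bipartite graph with `inl j` adjacent to `inr (fam k c σ a j)` for every index `a` -/
def Gr (k : ℕ) (c : Equiv.Perm X) (σ : Fin k → Equiv.Perm X) : SimpleGraph (X ⊕ X) where
  Adj u v := match u, v with
    | Sum.inl j, Sum.inr l => ∃ a, fam k c σ a j = l
    | Sum.inr l, Sum.inl j => ∃ a, fam k c σ a j = l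
    | _, _ => False
  symm := ⟨fun u v h => by rcases u with u | u <;> rcases v with v | v <;> exact h⟩
  loopless := ⟨fun u h => by rcases u with u | u <;> exact h⟩

lemma adj_lr (k : ℕ) (c : Equiv.Perm X) (σ : Fin k → Equiv.Perm X) (j l : X) :
    (Gr k c σ).Adj (Sum.inl j) (Sum.inr l) ↔ ∃ a, fam k c σ a j = l := Iff.rfl

lemma adj_rl (k : ℕ) (c : Equiv.Perm X) (σ : Fin k → Equiv.Perm X) (j l : X) :
    (Gr k c σ).Adj (Sum.inr l) (Sum.inl j) ↔ ∃ a, fam k c σ a j = l := Iff.rfl

lemma adj_ll (k : ℕ) (c : Equiv.Perm X) (σ : Fin k → Equiv.Perm X) (j l : X) :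
    ¬ (Gr k c σ).Adj (Sum.inl j) (Sum.inl l) := fun h => h

lemma adj_rr (k : ℕ) (c : Equiv.Perm X) (σ : Fin k → Equiv.Perm X) (j l : X) :
    ¬ (Gr k c σ).Adj (Sum.inr j) (Sum.inr l) := fun h => h

lemma deg_inl (k : ℕ) (c : Equiv.Perm X) (σ : Fin k → Equiv.Perm X)
    [DecidableRel (Gr k c σ).Adj] (j : X) :
    (Gr k c σ).degree (Sum.inl j) = (univ.image fun a => fam k c σ a j).card := by
  rw [← SimpleGraph.card_neighborFinset_eq_degree]
  have h : (Gr k c σ).neighborFinset (Sum.inl j) =
      (univ.image fun a => fam k c σ a j).map ⟨Sum.inr, Sum.inr_injective⟩ := by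
    ext v
    rw [SimpleGraph.mem_neighborFinset]
    rcases v with v | v
    · constructor
      · intro h; exact absurd h (adj_ll k c σ j v)
      · intro h
        obtain ⟨w, _, hw⟩ := mem_map.mp h
        simp at hw
    · rw [adj_lr]
      simp
  rw [h, card_map]

lemma deg_inl_le (k : ℕ) (c : Equiv.Perm X) (σ : Fin k → Equiv.Perm X)
    [DecidableRel (Gr k c σ).Adj] (j : X) :
    (Gr k c σ).degree (Sum.inl j) ≤ k + 2 := by
  rw [deg_inl]
  refine card_image_le.trans ?_
  rw [card_univ, Fintype.card_option, Fintype.card_option, Fintype.card_fin]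

lemma deg_inr_le (k : ℕ) (c : Equiv.Perm X) (σ : Fin k → Equiv.Perm X)
    [DecidableRel (Gr k c σ).Adj] (l : X) :
    (Gr k c σ).degree (Sum.inr l) ≤ k + 2 := by
  rw [← SimpleGraph.card_neighborFinset_eq_degree]
  have h : (Gr k c σ).neighborFinset (Sum.inr l) ⊆
      univ.image fun a => (Sum.inl ((fam k c σ a).symm l) : X ⊕ X) := by
    intro v hv
    rw [SimpleGraph.mem_neighborFinset] at hv
    rcases v with v | v
    · obtain ⟨a, ha⟩ := hv
      refine mem_image.mpr ⟨a, mem_univ _, ?_⟩
      rw [← ha]; simp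
    · exact absurd hv (adj_rr k c σ l v)
  refine (card_le_card h).trans (card_image_le.trans ?_)
  rw [card_univ, Fintype.card_option, Fintype.card_option, Fintype.card_fin]

lemma edges_ge (k : ℕ) (c : Equiv.Perm X) (σ : Fin k → Equiv.Perm X)
    [DecidableRel (Gr k c σ).Adj] :
    (k + 2) * Fintype.card X ≤ (Gr k c σ).edgeFinset.card + coll k c σ := by
  have hb : (Gr k c σ).IsBipartiteWith
      (((univ : Finset X).map ⟨Sum.inl, Sum.inl_injective⟩ : Finset (X ⊕ X)) : Set (X ⊕ X))
      (((univ : Finset X).map ⟨Sum.inr, Sum.inr_injective⟩ : Finset (X ⊕ X)) : Set (X ⊕ X)) := by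
    refine ⟨?_, ?_⟩
    · rw [Set.disjoint_left]
      intro v h1 h2
      rw [mem_coe, mem_map] at h1 h2
      obtain ⟨a, _, rfl⟩ := h1
      obtain ⟨b, _, hb⟩ := h2
      simp at hb
    · intro v w h
      rcases v with v | v <;> rcases w with w | w
      · exact absurd h (adj_ll k c σ v w)
      · left; simp
      · right; simp
      · exact absurd h (adj_rr k c σ v w)
  have h1 := SimpleGraph.isBipartiteWith_sum_degrees_eq_card_edges hb
  rw [← h1, sum_map]
  have h2 : ∀ j : X, k + 2 ≤ (Gr k c σ).degree (Sum.inl j) +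
      ((univ : Finset (Option (Option (Fin k)) × Option (Option (Fin k)))).filter
        fun p => p.1 ≠ p.2 ∧ fam k c σ p.1 j = fam k c σ p.2 j).card := by
    intro j
    rw [deg_inl]
    have := card_image_ge (fun a => fam k c σ a j)
    rw [Fintype.card_option, Fintype.card_option, Fintype.card_fin] at this
    exact this
  have h3 := Finset.sum_le_sum fun (j : X) (_ : j ∈ univ) => h2 j
  rw [Finset.sum_const, smul_eq_mul, card_univ, Finset.sum_add_distrib] at h3
  rw [mul_comm]
  exact h3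

lemma conn (k : ℕ) (c : Equiv.Perm X) (σ : Fin k → Equiv.Perm X) [Nonempty X]
    (hc : ∀ x y : X, ∃ n : ℕ, (c^[n]) x = y) : (Gr k c σ).Connected := by
  have h0 : ∀ x : X, (Gr k c σ).Adj (Sum.inl x) (Sum.inr x) := fun x => ⟨none, rfl⟩
  have h1 : ∀ x : X, (Gr k c σ).Adj (Sum.inl x) (Sum.inr (c x)) := fun x => ⟨some none, rfl⟩
  have h2 : ∀ x : X, (Gr k c σ).Reachable (Sum.inl x) (Sum.inl (c x)) := fun x =>
    (h1 x).reachable.trans (h0 (c x)).reachable.symm
  have h3 : ∀ (n : ℕ) (x : X), (Gr k c σ).Reachable (Sum.inl x) (Sum.inl ((c^[n]) x)) := by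
    intro n
    induction n with
    | zero => intro x; exact SimpleGraph.Reachable.refl _
    | succ n ih => intro x; rw [Function.iterate_succ_apply]; exact (h2 x).trans (ih (c x))
  have h4 : ∀ x y : X, (Gr k c σ).Reachable (Sum.inl x) (Sum.inl y) := by
    intro x y
    obtain ⟨n, hn⟩ := hc x y
    have := h3 n x
    rwa [hn] at this
  haveI : Nonempty (X ⊕ X) := ⟨Sum.inl (Classical.arbitrary X)⟩
  refine SimpleGraph.Connected.mk ?_
  intro u v
  rcases u with u | u <;> rcases v with v | v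
  · exact h4 u v
  · exact (h4 u v).trans (h0 v).reachable
  · exact (h0 u).reachable.symm.trans (h4 u v)
  · exact ((h0 u).reachable.symm.trans (h4 u v)).trans (h0 v).reachable

lemma big_of_notBad (k s : ℕ) (c : Equiv.Perm X) (σ : Fin k → Equiv.Perm X)
    (hs : s ≤ Fintype.card X) (hσ : σ ∉ bad k s c) (S : Finset X)
    (hS : ∀ j, j ∈ S ∨ c j ∈ S ∨ ∃ i, σ i j ∈ S) : s + 1 ≤ S.card := by
  by_contra hcon
  obtain ⟨S', hSS', _, hcard⟩ := Finset.exists_subsuperset_card_eq (subset_univ S)
    (by omega : S.card ≤ s) (by rw [card_univ]; exact hs)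
  apply hσ
  refine mem_filter.mpr ⟨mem_univ _, S', hcard, ?_⟩
  intro j
  rcases hS j with h | h | ⟨i, h⟩
  · exact Or.inl (hSS' h)
  · exact Or.inr (Or.inl (hSS' h))
  · exact Or.inr (Or.inr ⟨i, hSS' h⟩)

open Pool.Agent.Results.MP_6659c6_co.LogUpper in
lemma tds_ge (k s : ℕ) (c : Equiv.Perm X) (σ : Fin k → Equiv.Perm X)
    (hs : s ≤ Fintype.card X) (h1 : σ ∉ bad k s c) (h2 : (fun i => (σ i)⁻¹) ∉ bad k s c⁻¹)
    (S : Finset (X ⊕ X)) (hS : IsTotalDominating (Gr k c σ) S) : 2 * (s + 1) ≤ S.card := by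
  have hR : s + 1 ≤ S.toRight.card := by
    apply big_of_notBad k s c σ hs h1
    intro j
    obtain ⟨u, hu, hadj⟩ := hS (Sum.inl j)
    rcases u with u | u
    · exact absurd hadj (adj_ll k c σ j u)
    · obtain ⟨a, ha⟩ := hadj
      rcases a with _ | _ | i
      · left; rw [mem_toRight]; rw [show j = u from ha]; exact hu
      · right; left; rw [mem_toRight]; rw [show c j = u from ha]; exact hu
      · right; right; refine ⟨i, ?_⟩; rw [mem_toRight]; rw [show σ i j = u from ha]; exact hu
  have hL : s + 1 ≤ S.toLeft.card := by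
    apply big_of_notBad k s c⁻¹ (fun i => (σ i)⁻¹) hs h2
    intro l
    obtain ⟨u, hu, hadj⟩ := hS (Sum.inr l)
    rcases u with u | u
    · obtain ⟨a, ha⟩ := hadj
      rcases a with _ | _ | i
      · left; rw [mem_toLeft]; rw [show u = l from ha] at hu; exact hu
      · right; left; rw [mem_toLeft]
        have : c u = l := ha
        rw [← this]
        show Sum.inl (c.symm (c u)) ∈ S
        rw [Equiv.symm_apply_apply]; exact hu
      · right; right; refine ⟨i, ?_⟩
        rw [mem_toLeft]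
        have : σ i u = l := ha
        rw [← this]
        show Sum.inl ((σ i).symm ((σ i) u)) ∈ S
        rw [Equiv.symm_apply_apply]; exact hu
    · exact absurd hadj (adj_rr k c σ l u)
  have := Finset.card_toLeft_add_card_toRight (u := S)
  omega

open Pool.Agent.Results.MP_6659c6_co.LogUpper in
lemma tds_univ (k : ℕ) (c : Equiv.Perm X) (σ : Fin k → Equiv.Perm X) :
    IsTotalDominating (Gr k c σ) univ := by
  intro v
  rcases v with v | v
  · exact ⟨Sum.inr v, mem_univ _, ⟨none, rfl⟩⟩
  · exact ⟨Sum.inl v, mem_univ _, ⟨none, rfl⟩⟩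

open Pool.Agent.Results.MP_6659c6_co.LogUpper in
lemma gammaT_ge (k s : ℕ) (c : Equiv.Perm X) (σ : Fin k → Equiv.Perm X)
    (hs : s ≤ Fintype.card X) (h1 : σ ∉ bad k s c) (h2 : (fun i => (σ i)⁻¹) ∉ bad k s c⁻¹) :
    2 * (s + 1) ≤ gammaT (Gr k c σ) := by
  apply le_csInf
  · exact ⟨_, univ, tds_univ k c σ, rfl⟩
  · rintro n ⟨S, hS, rfl⟩
    exact tds_ge k s c σ hs h1 h2 S hS

open Pool.Agent.Results.MP_6659c6_co.LogUpper in
lemma gammaT_le (k : ℕ) (c : Equiv.Perm X) (σ : Fin k → Equiv.Perm X) :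
    gammaT (Gr k c σ) ≤ 2 * Fintype.card X := by
  apply Nat.sInf_le
  refine ⟨univ, tds_univ k c σ, ?_⟩
  rw [card_univ, Fintype.card_sum]; ring

end graph

open Pool.Agent.Results.MP_6659c6_co.LogUpper in
lemma adm_lower (D s N : ℕ) (hD : 2 ≤ D) (hN : 4 * D ≤ N) (hs : s ≤ N)
    (hb : ((N.choose s : ℕ) : ℝ) *
      (1 - (1 - (s : ℝ) / (N : ℝ)) ^ (D - 2)) ^ (N - 2 * s) ≤ 1 / 8)
    (r : ℝ) (hr : Admissible D r) :
    (D : ℝ) * (s + 1) - 4 * (D : ℝ) ^ 2 ≤ r * ((N : ℝ) - s - 1) := by
  classical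
  haveI : NeZero N := ⟨by omega⟩
  haveI : Fact (1 < N) := ⟨by omega⟩
  obtain ⟨k, rfl⟩ : ∃ k, D = k + 2 := ⟨D - 2, by omega⟩
  rw [Nat.add_sub_cancel] at hb
  set c : Equiv.Perm (ZMod N) := Equiv.addRight 1 with hc
  have hc1 : ∀ j, c j ≠ j := by
    intro j h
    have : j + 1 = j := h
    simp at this
  have hc2 : ∀ x y : ZMod N, ∃ n : ℕ, (c^[n]) x = y := by
    have h1 : ∀ (n : ℕ) (x : ZMod N), (c^[n]) x = x + n := by
      intro n
      induction n with
      | zero => intro x; simp
      | succ n ih =>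
        intro x
        rw [Function.iterate_succ_apply, ih]
        show x + 1 + n = _
        push_cast; ring
    intro x y
    refine ⟨(y - x).val, ?_⟩
    rw [h1, ZMod.natCast_zmod_val]; ring
  obtain ⟨σ, h1, h2, h3⟩ := exists_good k s c hc1 (by rw [ZMod.card]; exact hs)
    (by rw [ZMod.card]; exact hb)
  have hconn := conn k c σ hc2
  have hdeg : ∀ v, (Gr k c σ).degree v ≤ k + 2 := by
    intro v
    rcases v with v | v
    · exact deg_inl_le k c σ v
    · exact deg_inr_le k c σ v
  have hcard : Fintype.card (ZMod N ⊕ ZMod N) = 2 * N := by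
    rw [Fintype.card_sum, ZMod.card]; ring
  have hadm := hr (ZMod N ⊕ ZMod N) (Gr k c σ) hconn (by rw [hcard]; omega) hdeg
  have hm := edges_ge k c σ
  rw [ZMod.card] at hm
  have hg1 := gammaT_ge k s c σ (by rw [ZMod.card]; exact hs) h1 h2
  have hg2 := gammaT_le k c σ
  rw [ZMod.card] at hg2
  rw [hcard] at hadm
  set m := (Gr k c σ).edgeFinset.card with hmdef
  set g := gammaT (Gr k c σ) with hg
  have hm' : (((k : ℝ) + 2) * N) < m + 4 * ((k : ℝ) + 2) ^ 2 := by
    have h5 : ((k : ℝ) + 2) * N ≤ m + coll k c σ := by exact_mod_cast hm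
    have h6 : (coll k c σ : ℝ) < 4 * ((k : ℝ) + 2) ^ 2 := by exact_mod_cast h3
    linarith
  have hN' : (4 * ((k : ℝ) + 2)) ≤ N := by exact_mod_cast hN
  have hmpos : (0 : ℝ) < m := by
    have : 0 < (k : ℝ) + 2 := by positivity
    nlinarith
  have hg1' : 2 * ((s : ℝ) + 1) ≤ g := by exact_mod_cast hg1
  have hg2' : (g : ℝ) ≤ 2 * N := by exact_mod_cast hg2
  push_cast at hadm ⊢
  have hpos : 0 ≤ (k : ℝ) + 2 + r := by
    by_contra hneg
    push Not at hneg
    have : 1 / 2 * ((k : ℝ) + 2 + r) * (2 * (N : ℝ) - g) ≤ 0 := by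
      apply mul_nonpos_of_nonpos_of_nonneg
      · linarith
      · linarith
    linarith
  have h7 : 1 / 2 * ((k : ℝ) + 2 + r) * (2 * (N : ℝ) - g) ≤
      1 / 2 * ((k : ℝ) + 2 + r) * (2 * (N : ℝ) - 2 * (s + 1)) := by
    apply mul_le_mul_of_nonneg_left _ (by linarith)
    linarith
  nlinarith

section analysis

lemma choose_bound (N s : ℕ) (D : ℝ) (hD : 0 < D) :
    ((N.choose s : ℕ) : ℝ) ≤ Real.exp (N / D + s * Real.log D) := by
  rcases lt_or_ge N s with h | h
  · rw [Nat.choose_eq_zero_of_lt h]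
    simp only [Nat.cast_zero]
    positivity
  have h1 : (1 / D : ℝ) ^ s * ((N.choose s : ℕ) : ℝ) ≤ (1 / D + 1) ^ N := by
    rw [add_pow]
    have h2 := Finset.single_le_sum (s := Finset.range (N + 1))
      (f := fun m => (1 / D : ℝ) ^ m * 1 ^ (N - m) * ((N.choose m : ℕ) : ℝ))
      (fun m _ => by positivity) (Finset.mem_range.mpr (Nat.lt_succ_of_le h))
    simpa using h2
  have h3 : (1 / D + 1 : ℝ) ^ N ≤ Real.exp (N / D) := by
    have h4 : (1 / D + 1 : ℝ) ≤ Real.exp (1 / D) := Real.add_one_le_exp _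
    calc (1 / D + 1 : ℝ) ^ N ≤ Real.exp (1 / D) ^ N := pow_le_pow_left₀ (by positivity) h4 N
      _ = Real.exp (N / D) := by rw [← Real.exp_nat_mul]; congr 1; ring
  have h5 : Real.exp (s * Real.log D) = D ^ s := by
    rw [Real.exp_nat_mul, Real.exp_log hD]
  rw [Real.exp_add, h5]
  have h6 : ((N.choose s : ℕ) : ℝ) = ((1 / D : ℝ) ^ s * ((N.choose s : ℕ) : ℝ)) * D ^ s := by
    rw [one_div, inv_pow]
    field_simp
  rw [h6]
  exact mul_le_mul_of_nonneg_right (h1.trans h3) (by positivity)

lemma pow_bound (k : ℕ) (x α : ℝ) (hx : x ≤ α) (hα : α < 1) :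
    Real.exp (-(k * (α / (1 - α)))) ≤ (1 - x) ^ k := by
  have h0 : (0 : ℝ) < 1 - α := by linarith
  have h1 : Real.exp (-(α / (1 - α))) ≤ 1 - α := by
    have h2 := Real.one_sub_inv_le_log_of_pos h0
    have h3 : 1 - (1 - α)⁻¹ = -(α / (1 - α)) := by
      field_simp; ring
    rw [h3] at h2
    calc Real.exp (-(α / (1 - α))) ≤ Real.exp (Real.log (1 - α)) := Real.exp_le_exp.mpr h2
      _ = 1 - α := Real.exp_log h0
  calc Real.exp (-(k * (α / (1 - α)))) = Real.exp (-(α / (1 - α))) ^ k := by
        rw [← Real.exp_nat_mul]; congr 1; ring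
    _ ≤ (1 - α) ^ k := pow_le_pow_left₀ (Real.exp_pos _).le h1 k
    _ ≤ (1 - x) ^ k := pow_le_pow_left₀ h0.le (by linarith) k

lemma exp_big (L : ℝ) (hL : 5 ≤ L) : L ^ 4 + 2 * L ^ 3 + 8 * L ≤ 8 * Real.exp L := by
  obtain ⟨u, rfl⟩ : ∃ u, L = 5 + u := ⟨L - 5, by ring⟩
  have hu : 0 ≤ u := by linarith
  rw [Real.exp_add]
  have h5 : (148 : ℝ) ≤ Real.exp 5 := by
    have h := Real.exp_one_gt_d9
    have h1 : Real.exp 5 = Real.exp 1 ^ 5 := by rw [← Real.exp_nat_mul]; norm_num
    rw [h1]
    calc (148 : ℝ) ≤ 2.7182818283 ^ 5 := by norm_num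
      _ ≤ Real.exp 1 ^ 5 := pow_le_pow_left₀ (by norm_num) h.le 5
  have hu' : 1 + u + u ^ 2 / 2 + u ^ 3 / 6 + u ^ 4 / 24 ≤ Real.exp u := by
    have := Real.sum_le_exp_of_nonneg hu 5
    simp [Finset.sum_range_succ, Nat.factorial] at this
    linarith
  have h1 : 148 * (1 + u + u ^ 2 / 2 + u ^ 3 / 6 + u ^ 4 / 24) ≤ Real.exp 5 * Real.exp u :=
    mul_le_mul h5 hu' (by positivity) (by positivity)
  have h2 : 0 ≤ u ^ 2 := by positivity
  have h3 : 0 ≤ u ^ 3 := by positivity
  have h4 : 0 ≤ u ^ 4 := by positivity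
  nlinarith

lemma main_cond (D N : ℕ) (hL : 5 ≤ Real.log D) (hN : 3 * D ≤ N) :
    ((N.choose ⌊(Real.log D - 2 * Real.log (Real.log D)) / D * N⌋₊ : ℕ) : ℝ) *
      (1 - (1 - ((⌊(Real.log D - 2 * Real.log (Real.log D)) / D * N⌋₊ : ℕ) : ℝ) / (N : ℝ)) ^
        (D - 2)) ^ (N - 2 * ⌊(Real.log D - 2 * Real.log (Real.log D)) / D * N⌋₊) ≤ 1 / 8 := by
  set L := Real.log D with hLdef
  set t := L - 2 * Real.log L with ht
  set s := ⌊t / D * N⌋₊ with hs
  have hD0 : (0 : ℝ) < D := by
    by_contra h
    have h1 : (D : ℝ) = 0 := le_antisymm (not_lt.mp h) (by positivity)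
    rw [hLdef, h1, Real.log_zero] at hL
    linarith
  have hDL : Real.exp L = D := Real.exp_log hD0
  have hexp := exp_big L hL
  rw [hDL] at hexp
  have hlog1 : 1 ≤ Real.log L := by
    rw [Real.le_log_iff_exp_le (by linarith)]
    have := Real.exp_one_lt_d9
    linarith
  have hlog2 : Real.log L ≤ L / 2 - 1 + Real.log 2 := by
    have h1 := Real.log_le_sub_one_of_pos (by linarith : 0 < L / 2)
    rw [Real.log_div (by linarith) (by norm_num)] at h1
    linarith
  have hlog2' := Real.log_two_lt_d9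
  have htpos : 0 < t := by rw [ht]; linarith
  have htL : t ≤ L := by rw [ht]; linarith
  have hL2 : 25 ≤ L ^ 2 := by nlinarith
  have hDbig : 2 * L ≤ D := by
    have h3 : 0 ≤ L ^ 3 := by positivity
    nlinarith [sq_nonneg (L ^ 2)]
  have hDL' : L < D := by linarith
  have hα1 : t / D < 1 := by rw [div_lt_one hD0]; linarith
  have hNpos : (0 : ℝ) < N := by
    have h3 : (3 : ℝ) * D ≤ N := by exact_mod_cast hN
    linarith
  have hsle : (s : ℝ) ≤ t / D * N := Nat.floor_le (by positivity)
  have hsN : (s : ℝ) / N ≤ t / D := by rw [div_le_iff₀ hNpos]; exact hsle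
  have hsN1 : (s : ℝ) / N ≤ 1 := hsN.trans hα1.le
  have hs0 : (0 : ℝ) ≤ (s : ℝ) / N := by positivity
  -- lower bound for y
  set y := (1 - (s : ℝ) / N) ^ (D - 2) with hy
  have hy0 : 0 ≤ y := pow_nonneg (by linarith) _
  have hy1 : y ≤ 1 := pow_le_one₀ (by linarith) (by linarith)
  have hD2 : 2 ≤ D := by
    have : (2 : ℝ) ≤ D := by linarith
    exact_mod_cast this
  have hylow : L ^ 2 / D * (1 - t ^ 2 / (D - t)) ≤ y := by
    have h1 := pow_bound (D - 2) ((s : ℝ) / N) (t / D) hsN hα1
    have h2 : -(t + t ^ 2 / (D - t)) ≤ -(((D - 2 : ℕ) : ℝ) * (t / D / (1 - t / D))) := by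
      rw [Nat.cast_sub hD2]
      have h3 : t / D / (1 - t / D) = t / (D - t) := by
        field_simp
      rw [h3]
      have h4 : (0 : ℝ) < D - t := by linarith
      rw [neg_le_neg_iff]
      have h5 : t + t ^ 2 / (D - t) = D * (t / (D - t)) := by
        field_simp; ring
      rw [h5]
      apply mul_le_mul_of_nonneg_right _ (by positivity)
      push_cast; linarith
    have h3 : Real.exp (-(t + t ^ 2 / (D - t))) ≤ y := (Real.exp_le_exp.mpr h2).trans h1
    have h4 : Real.exp (-(t + t ^ 2 / (D - t))) = L ^ 2 / D * Real.exp (-(t ^ 2 / (D - t))) := by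
      have h5 : -(t + t ^ 2 / (D - t)) = 2 * Real.log L + (-L) + -(t ^ 2 / (D - t)) := by
        rw [ht]; ring
      rw [h5, Real.exp_add, Real.exp_add, Real.exp_neg L, hDL]
      have h6 : Real.exp (2 * Real.log L) = L ^ 2 := by
        rw [mul_comm, Real.exp_mul, Real.exp_log (by linarith)]; norm_cast
      rw [h6]; ring
    have h5 : 1 - t ^ 2 / (D - t) ≤ Real.exp (-(t ^ 2 / (D - t))) := by
      have := Real.add_one_le_exp (-(t ^ 2 / (D - t)))
      linarith
    calc L ^ 2 / D * (1 - t ^ 2 / (D - t)) ≤ L ^ 2 / D * Real.exp (-(t ^ 2 / (D - t))) :=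
          mul_le_mul_of_nonneg_left h5 (by positivity)
      _ = Real.exp (-(t + t ^ 2 / (D - t))) := h4.symm
      _ ≤ y := h3
  -- small errors
  have hDt : (0 : ℝ) < D - t := by linarith
  have herr : L ^ 2 * (t ^ 2 / (D - t) + 2 * t / D) ≤ 8 := by
    have hDLpos : (0 : ℝ) < D - L := by linarith
    have h1 : t ^ 2 / (D - t) ≤ L ^ 2 / (D - L) := by
      apply div_le_div₀ (by positivity) _ hDLpos (by linarith)
      exact pow_le_pow_left₀ htpos.le htL 2
    have h2 : 2 * t / D ≤ 2 * L / (D - L) := by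
      apply div_le_div₀ (by positivity) (by linarith) hDLpos (by linarith)
    calc L ^ 2 * (t ^ 2 / (D - t) + 2 * t / D) ≤ L ^ 2 * (L ^ 2 / (D - L) + 2 * L / (D - L)) :=
          mul_le_mul_of_nonneg_left (by linarith) (by positivity)
      _ = (L ^ 4 + 2 * L ^ 3) / (D - L) := by ring
      _ ≤ 8 := by rw [div_le_iff₀ hDLpos]; linarith
  have hy0' : 0 ≤ 1 - t ^ 2 / (D - t) := by
    have h1 : t ^ 2 / (D - t) * L ^ 2 ≤ 8 := by
      have : 0 ≤ L ^ 2 * (2 * t / D) := by positivity
      linarith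
    have h2 : t ^ 2 / (D - t) * 25 ≤ t ^ 2 / (D - t) * L ^ 2 :=
      mul_le_mul_of_nonneg_left hL2 (by positivity)
    linarith
  have h2t : 0 ≤ 1 - 2 * t / D := by
    rw [sub_nonneg, div_le_one hD0]; linarith
  have hcast : (N : ℝ) * (1 - 2 * t / D) ≤ ((N - 2 * s : ℕ) : ℝ) := by
    have h1 : (N : ℝ) ≤ ((N - 2 * s : ℕ) : ℝ) + 2 * s := by
      exact_mod_cast (by omega : N ≤ (N - 2 * s) + 2 * s)
    have h2 : (N : ℝ) * (1 - 2 * t / D) = N - 2 * (t / D * N) := by ring
    rw [h2]; linarith
  have hprod : (N : ℝ) / D * (L ^ 2 - 8) ≤ y * ((N - 2 * s : ℕ) : ℝ) := by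
    calc (N : ℝ) / D * (L ^ 2 - 8)
        ≤ (N : ℝ) / D * (L ^ 2 - L ^ 2 * (t ^ 2 / (D - t) + 2 * t / D)) :=
          mul_le_mul_of_nonneg_left (by linarith) (by positivity)
      _ ≤ (L ^ 2 / D * (1 - t ^ 2 / (D - t))) * (N * (1 - 2 * t / D)) := by
          have h1 : (L ^ 2 / D * (1 - t ^ 2 / (D - t))) * (N * (1 - 2 * t / D)) =
              (N : ℝ) / D * (L ^ 2 - L ^ 2 * (t ^ 2 / (D - t) + 2 * t / D)) +
              (N : ℝ) / D * L ^ 2 * (t ^ 2 / (D - t) * (2 * t / D)) := by ring
          rw [h1]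
          have : 0 ≤ (N : ℝ) / D * L ^ 2 * (t ^ 2 / (D - t) * (2 * t / D)) := by positivity
          linarith
      _ ≤ y * ((N - 2 * s : ℕ) : ℝ) := mul_le_mul hylow hcast (by positivity) hy0
  have hq : (1 - y) ^ (N - 2 * s) ≤ Real.exp (-(y * ((N - 2 * s : ℕ) : ℝ))) := by
    have h1 : 1 - y ≤ Real.exp (-y) := by
      have := Real.add_one_le_exp (-y)
      linarith
    calc (1 - y) ^ (N - 2 * s) ≤ Real.exp (-y) ^ (N - 2 * s) :=
          pow_le_pow_left₀ (by linarith) h1 _
      _ = Real.exp (-(y * ((N - 2 * s : ℕ) : ℝ))) := by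
          rw [← Real.exp_nat_mul]; congr 1; ring
  have hch := choose_bound N s D hD0
  calc ((N.choose s : ℕ) : ℝ) * (1 - y) ^ (N - 2 * s)
      ≤ Real.exp (N / D + s * Real.log D) * Real.exp (-(y * ((N - 2 * s : ℕ) : ℝ))) :=
        mul_le_mul hch hq (pow_nonneg (by linarith) _) (Real.exp_pos _).le
    _ = Real.exp (N / D + s * Real.log D + -(y * ((N - 2 * s : ℕ) : ℝ))) := by
        rw [← Real.exp_add]
    _ ≤ Real.exp (-3) := by
        apply Real.exp_le_exp.mpr
        have h1 : (s : ℝ) * Real.log D ≤ (N : ℝ) / D * (t * L) := by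
          calc (s : ℝ) * Real.log D ≤ (t / D * N) * L :=
                mul_le_mul_of_nonneg_right hsle (by linarith)
            _ = _ := by ring
        have h2 : t * L ≤ L ^ 2 - 2 * L := by
          rw [ht]; nlinarith
        have h3 : (N : ℝ) / D * (t * L) ≤ (N : ℝ) / D * (L ^ 2 - 2 * L) :=
          mul_le_mul_of_nonneg_left h2 (by positivity)
        have h4 : (3 : ℝ) ≤ (N : ℝ) / D := by
          rw [le_div_iff₀ hD0]; exact_mod_cast hN
        have h5 : (N : ℝ) / D + (N : ℝ) / D * (L ^ 2 - 2 * L) - (N : ℝ) / D * (L ^ 2 - 8) =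
            -((N : ℝ) / D * (2 * L - 9)) := by ring
        have h6 : 3 ≤ (N : ℝ) / D * (2 * L - 9) := by
          calc (3 : ℝ) ≤ (N : ℝ) / D * 1 := by rw [mul_one]; exact h4
            _ ≤ (N : ℝ) / D * (2 * L - 9) :=
              mul_le_mul_of_nonneg_left (by linarith) (by positivity)
        linarith
    _ ≤ 1 / 8 := by
        have h1 : (8 : ℝ) ≤ Real.exp 3 := by
          have h := Real.exp_one_gt_d9
          have h1 : Real.exp 3 = Real.exp 1 ^ 3 := by rw [← Real.exp_nat_mul]; norm_num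
          rw [h1]
          calc (8 : ℝ) ≤ 2.7182818283 ^ 3 := by norm_num
            _ ≤ Real.exp 1 ^ 3 := pow_le_pow_left₀ (by norm_num) h.le 3
        rw [Real.exp_neg, ← one_div]
        exact one_div_le_one_div_of_le (by norm_num) h1

end analysis

open Pool.Agent.Results.MP_6659c6_co.LogUpper in
lemma lower_large (D : ℕ) (hL : 5 ≤ Real.log D) (r : ℝ) (hr : Admissible D r) :
    Real.log D - 2 * Real.log (Real.log D) ≤ r := by
  by_contra hcon
  push Not at hcon
  set L := Real.log D with hLdef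
  set t := L - 2 * Real.log L with ht
  have hD0 : (0 : ℝ) < D := by
    by_contra h
    have h1 : (D : ℝ) = 0 := le_antisymm (not_lt.mp h) (by positivity)
    rw [hLdef, h1, Real.log_zero] at hL
    linarith
  have hDL : Real.exp L = D := Real.exp_log hD0
  have hexp := exp_big L hL
  rw [hDL] at hexp
  have hlog2 : Real.log L ≤ L / 2 - 1 + Real.log 2 := by
    have h1 := Real.log_le_sub_one_of_pos (by linarith : 0 < L / 2)
    rw [Real.log_div (by linarith) (by norm_num)] at h1
    linarith
  have hlog1 : 0 ≤ Real.log L := Real.log_nonneg (by linarith)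
  have hlog2' := Real.log_two_lt_d9
  have htpos : 0 < t := by rw [ht]; linarith
  have htL : t ≤ L := by rw [ht]; linarith
  have hDbig : 2 * L ≤ D := by
    have h3 : 0 ≤ L ^ 3 := by positivity
    nlinarith [sq_nonneg (L ^ 2)]
  have hDL' : L < D := by linarith
  have hD2 : 2 ≤ D := by
    have : (2 : ℝ) ≤ D := by linarith
    exact_mod_cast this
  have hα1 : t / D < 1 := by rw [div_lt_one hD0]; linarith
  set w := t - max r 0 with hw
  have hwpos : 0 < w := by
    rw [hw, sub_pos]; exact max_lt hcon htpos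
  obtain ⟨N, hN⟩ := exists_nat_gt (max (4 * (D : ℝ)) (4 * (D : ℝ) ^ 2 / w))
  have hN1 : 4 * (D : ℝ) < N := (le_max_left _ _).trans_lt hN
  have hN2 : 4 * (D : ℝ) ^ 2 / w < N := (le_max_right _ _).trans_lt hN
  have hN1' : 4 * D ≤ N := by
    have : 4 * D < N := by exact_mod_cast hN1
    omega
  have hcond := main_cond D N hL (by omega)
  rw [← hLdef, ← ht] at hcond
  set s := ⌊t / D * N⌋₊ with hs
  have hNpos : (0 : ℝ) < N := by linarith
  have hsle : (s : ℝ) ≤ t / D * N := Nat.floor_le (by positivity)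
  have hslt : t / D * N < s + 1 := Nat.lt_floor_add_one _
  have hsN : s < N := by
    have : (s : ℝ) < N := by
      calc (s : ℝ) ≤ t / D * N := hsle
        _ < 1 * N := mul_lt_mul_of_pos_right hα1 hNpos
        _ = N := one_mul _
    exact_mod_cast this
  have hadm := adm_lower D s N hD2 hN1' hsN.le hcond r hr
  have h1 : t * N ≤ (D : ℝ) * (s + 1) := by
    have : t * N = D * (t / D * N) := by field_simp
    rw [this]
    exact mul_le_mul_of_nonneg_left hslt.le hD0.le
  have h2 : (0 : ℝ) ≤ (N : ℝ) - s - 1 := by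
    have : (s : ℝ) + 1 ≤ N := by exact_mod_cast hsN
    linarith
  have h3 : r * ((N : ℝ) - s - 1) ≤ max r 0 * N := by
    calc r * ((N : ℝ) - s - 1) ≤ max r 0 * ((N : ℝ) - s - 1) :=
          mul_le_mul_of_nonneg_right (le_max_left _ _) h2
      _ ≤ max r 0 * N := by
          apply mul_le_mul_of_nonneg_left _ (le_max_right _ _)
          have : (0 : ℝ) ≤ s := by positivity
          linarith
  rw [div_lt_iff₀ hwpos] at hN2
  have h4 : w * N = t * N - max r 0 * N := by rw [hw]; ring
  linarith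

open Pool.Agent.Results.MP_6659c6_co.LogUpper in
lemma lower_two (D : ℕ) (hD : 3 ≤ D) (r : ℝ) (hr : Admissible D r) : 2 ≤ r := by
  have hconn : (⊤ : SimpleGraph (Fin (D + 1))).Connected := SimpleGraph.connected_top
  have hcard : 3 ≤ Fintype.card (Fin (D + 1)) := by rw [Fintype.card_fin]; omega
  have h := hr (Fin (D + 1)) ⊤ hconn hcard (by intro v; simp)
  have hle := gammaT_le_card (⊤ : SimpleGraph (Fin (D + 1))) hconn hcard
  obtain ⟨S, hS, hSc⟩ := gammaT_attained (⊤ : SimpleGraph (Fin (D + 1))) hconn hcard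
  have h2 : 2 ≤ gammaT (⊤ : SimpleGraph (Fin (D + 1))) := by
    rw [← hSc]
    obtain ⟨u, hu, _⟩ := hS 0
    obtain ⟨w, hw, huw⟩ := hS u
    exact Finset.one_lt_card.mpr ⟨u, hu, w, hw, huw.ne⟩
  rw [SimpleGraph.card_edgeFinset_top_eq_card_choose_two, Fintype.card_fin] at h
  rw [Fintype.card_fin] at hle
  have h3 : (((D + 1).choose 2 : ℕ) : ℝ) = (D + 1) * D / 2 := by
    rw [Nat.cast_choose_two]; push_cast; ring
  rw [h3] at h
  have h4 : (2 : ℝ) ≤ gammaT (⊤ : SimpleGraph (Fin (D + 1))) := by exact_mod_cast h2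
  have h5 : (gammaT (⊤ : SimpleGraph (Fin (D + 1))) : ℝ) ≤ D + 1 := by exact_mod_cast hle
  have hD' : (3 : ℝ) ≤ D := by exact_mod_cast hD
  set g : ℝ := (gammaT (⊤ : SimpleGraph (Fin (D + 1))) : ℝ) with hg
  push_cast at h
  have hpos : 0 ≤ (D : ℝ) + r := by
    by_contra hneg
    push Not at hneg
    have : 1 / 2 * ((D : ℝ) + r) * ((D : ℝ) + 1 - g) ≤ 0 := by
      apply mul_nonpos_of_nonpos_of_nonneg
      · linarith
      · linarith
    nlinarith
  have h6 : 1 / 2 * ((D : ℝ) + r) * ((D : ℝ) + 1 - g) ≤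
      1 / 2 * ((D : ℝ) + r) * ((D : ℝ) - 1) := by
    apply mul_le_mul_of_nonneg_left _ (by linarith)
    linarith
  have h7 : ((D : ℝ) + 1) * D ≤ (D + r) * (D - 1) := by linarith
  nlinarith

lemma small_le (L : ℝ) (h1 : 1 ≤ L) (h2 : L ≤ 5) : L - 2 * Real.log L ≤ 2 := by
  have h0 : 0 ≤ Real.log L := Real.log_nonneg h1
  rcases le_or_gt L 2 with h | h
  · linarith
  · have h3 := Real.one_sub_inv_le_log_of_pos (by positivity : 0 < L / 4)
    rw [Real.log_div (by linarith) (by norm_num)] at h3
    have h4 : Real.log 4 = 2 * Real.log 2 := by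
      rw [show (4 : ℝ) = 2 ^ 2 by norm_num, Real.log_pow]; norm_num
    have h5 := Real.log_two_gt_d9
    rw [h4, inv_div] at h3
    have h6 : L * (4 / L) = 4 := by field_simp
    have h7 : 0 < 4 / L := by positivity
    -- L - 2 log L ≤ L - 2 (1 - 4/L + 2 log 2)
    have h8 : 1 - 4 / L + 2 * 0.6931471803 ≤ Real.log L := by linarith
    have h9 : 0 ≤ L * (2 - L + 2 * (1 - 4 / L + 2 * 0.6931471803)) := by nlinarith
    have h10 : 0 ≤ 2 - L + 2 * (1 - 4 / L + 2 * 0.6931471803) :=
      nonneg_of_mul_nonneg_right h9 (by linarith)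
    linarith

open Pool.Agent.Results.MP_6659c6_co.LogUpper in
lemma lower (D : ℕ) (hD : 3 ≤ D) (r : ℝ) (hr : Admissible D r) :
    Real.log D - 2 * Real.log (Real.log D) ≤ r := by
  rcases le_or_gt 5 (Real.log D) with h | h
  · exact lower_large D h r hr
  · exact (small_le _ (log_ge_one D hD) h.le).trans (lower_two D hD r hr)

open Pool.Agent.Results.MP_6659c6_co.LogUpper in
lemma upper (D : ℕ) (hD : 3 ≤ D) :
    sInf {r : ℝ | Admissible D r} ≤
      Real.log D + 1 + (1 + Real.log D) ^ 2 / ((D : ℝ) - 1 - Real.log D) := by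
  refine ((isLeast_sInf D hD).2 (upper_admissible D hD)).trans (le_of_eq ?_)
  have h3 : (3 : ℝ) ≤ D := by exact_mod_cast hD
  have h4 : Real.log D < (D : ℝ) - 1 := by
    apply Real.log_lt_sub_one_of_pos (by linarith)
    linarith
  have h5 : (0 : ℝ) < (D : ℝ) - 1 - Real.log D := by linarith
  field_simp
  ring

open Pool.Agent.Results.MP_6659c6_co.LogUpper Filter in
/-- **Main theorem.** For every `D ≥ 3` the least admissible real `r_D` exists and
`ln D - 2 ln ln D ≤ r_D ≤ ln D + 1 + (1 + ln D)² / (D - 1 - ln D)`; in particular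
`r_D / ln D → 1`. -/
theorem result :
    (∀ D : ℕ, 3 ≤ D → ∃ r : ℝ, IsLeast {r : ℝ | Admissible D r} r ∧
      Real.log D - 2 * Real.log (Real.log D) ≤ r ∧
      r ≤ Real.log D + 1 + (1 + Real.log D) ^ 2 / ((D : ℝ) - 1 - Real.log D)) ∧
    Tendsto (fun D : ℕ => sInf {r : ℝ | Admissible D r} / Real.log D) atTop (nhds 1) := by
  refine ⟨fun D hD => ⟨_, isLeast_sInf D hD, lower D hD _ (isLeast_sInf D hD).1, upper D hD⟩, ?_⟩
  have hlogD : Tendsto (fun D : ℕ => Real.log (D : ℝ)) atTop atTop :=
    Real.tendsto_log_atTop.comp tendsto_natCast_atTop_atTop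
  have hlow : Tendsto (fun D : ℕ => 1 - 2 * (Real.log (Real.log (D : ℝ)) / Real.log D))
      atTop (nhds 1) := by
    have h1 : Tendsto (fun x : ℝ => Real.log x / x) atTop (nhds 0) := by
      have := Real.isLittleO_log_id_atTop.tendsto_div_nhds_zero
      simpa using this
    have h2 := (h1.comp hlogD).const_mul 2
    have h3 := h2.const_sub 1
    simpa using h3
  have hup : Tendsto (fun D : ℕ => 1 + 1 / Real.log (D : ℝ) +
      (1 + Real.log D) ^ 2 / ((D : ℝ) - 1 - Real.log D) / Real.log D) atTop (nhds 1) := by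
    have h1 : Tendsto (fun x : ℝ => (1 + Real.log x) ^ 2 / (x - 1 - Real.log x)) atTop (nhds 0) := by
      have ha : Tendsto (fun x : ℝ => 1 / x) atTop (nhds 0) := tendsto_id.const_div_atTop 1
      have hb : Tendsto (fun x : ℝ => Real.log x / x) atTop (nhds 0) := by
        have := Real.isLittleO_log_id_atTop.tendsto_div_nhds_zero
        simpa using this
      have hc : Tendsto (fun x : ℝ => Real.log x ^ 2 / x) atTop (nhds 0) := by
        have := (Real.isLittleO_pow_log_id_atTop (n := 2)).tendsto_div_nhds_zero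
        simpa using this
      have hnum : Tendsto (fun x : ℝ => 1 / x + 2 * (Real.log x / x) + Real.log x ^ 2 / x)
          atTop (nhds 0) := by
        simpa using (ha.add (hb.const_mul 2)).add hc
      have hden : Tendsto (fun x : ℝ => 1 - 1 / x - Real.log x / x) atTop (nhds 1) := by
        simpa using (ha.const_sub 1).sub hb
      have hq := hnum.div hden one_ne_zero
      rw [zero_div] at hq
      refine hq.congr' ?_
      filter_upwards [eventually_gt_atTop 0] with x hx
      have e1 : 1 / x + 2 * (Real.log x / x) + Real.log x ^ 2 / x = (1 + Real.log x) ^ 2 / x := by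
        field_simp; ring
      have e2 : 1 - 1 / x - Real.log x / x = (x - 1 - Real.log x) / x := by
        field_simp
      show (1 / x + 2 * (Real.log x / x) + Real.log x ^ 2 / x) /
        (1 - 1 / x - Real.log x / x) = _
      rw [e1, e2, div_div_div_cancel_right₀ hx.ne']
    have h2 := h1.comp (tendsto_natCast_atTop_atTop (R := ℝ))
    have h3 := h2.div_atTop hlogD
    have h4 : Tendsto (fun D : ℕ => 1 / Real.log (D : ℝ)) atTop (nhds 0) :=
      hlogD.const_div_atTop 1
    have h5 := (h4.const_add 1).add h3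
    simpa using h5
  refine tendsto_of_tendsto_of_tendsto_of_le_of_le' hlow hup ?_ ?_
  · filter_upwards [eventually_ge_atTop 3] with D hD
    have hL := log_ge_one D hD
    rw [le_div_iff₀ (by linarith)]
    have := lower D hD _ (isLeast_sInf D hD).1
    have h2 : (1 - 2 * (Real.log (Real.log (D : ℝ)) / Real.log D)) * Real.log D =
        Real.log D - 2 * Real.log (Real.log D) := by
      field_simp
    rw [h2]; exact this
  · filter_upwards [eventually_ge_atTop 3] with D hD
    have hL := log_ge_one D hD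
    rw [div_le_iff₀ (by linarith)]
    have := upper D hD
    have h2 : (1 + 1 / Real.log (D : ℝ) +
      (1 + Real.log D) ^ 2 / ((D : ℝ) - 1 - Real.log D) / Real.log D) * Real.log D =
        Real.log D + 1 + (1 + Real.log D) ^ 2 / ((D : ℝ) - 1 - Real.log D) := by
      field_simp
    rw [h2]; exact this

end Pool.Agent.Results.MP_6659c6_co.LogAsymptotic
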