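import Mathlib

set_option autoImplicit false

namespace Pool.Agent.Results.MP_6659c6_co.LogUpper

open Finset

/-- `S` is a total dominating set of `G`: every vertex has a neighbour in `S`. -/
def IsTotalDominating {V : Type} (G : SimpleGraph V) (S : Finset V) : Prop :=
  ∀ v : V, ∃ u ∈ S, G.Adj v u

/-- The total domination number: least size of a total dominating set. -/
noncomputable def gammaT {V : Type} (G : SimpleGraph V) : ℕ :=
  sInf {k : ℕ | ∃ S : Finset V, IsTotalDominating G S ∧ S.card = k}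

/-- `r` is admissible for `D`: `m ≤ (D + r)/2 * (n - γ_t)` for all connected graphs of order
`n ≥ 3` and maximum degree at most `D`. -/
def Admissible (D : ℕ) (r : ℝ) : Prop :=
  ∀ (V : Type) [Fintype V] [DecidableEq V] (G : SimpleGraph V) [DecidableRel G.Adj],
    G.Connected → 3 ≤ Fintype.card V → (∀ v, G.degree v ≤ D) →
      (G.edgeFinset.card : ℝ) ≤ 1 / 2 * (D + r) * ((Fintype.card V : ℝ) - gammaT G)

section prob

variable {V : Type} [DecidableEq V]

/-- product weight of `X` inside `U` -/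
noncomputable def wt (p : ℝ) (U X : Finset V) : ℝ := p ^ X.card * (1 - p) ^ (U \ X).card

lemma wt_disjoint (p : ℝ) (U A : Finset V) :
    ∑ X ∈ U.powerset, (if Disjoint X A then wt p U X else 0) = (1 - p) ^ (U ∩ A).card := by
  have h := Finset.prod_add (fun i => if i ∈ A then (0 : ℝ) else p) (fun _ => 1 - p) U
  have h1 : ∏ i ∈ U, ((if i ∈ A then (0 : ℝ) else p) + (1 - p)) = (1 - p) ^ (U ∩ A).card := by
    have : ∀ i ∈ U, ((if i ∈ A then (0 : ℝ) else p) + (1 - p)) = if i ∈ A then (1 - p) else 1 := by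
      intro i _
      split_ifs <;> ring
    rw [Finset.prod_congr rfl this, Finset.prod_ite, Finset.prod_const_one, mul_one,
      Finset.prod_const]
    congr 2
  rw [← h1, h]
  apply Finset.sum_congr rfl
  intro X hX
  by_cases hd : Disjoint X A
  · rw [if_pos hd, wt]
    congr 1
    · rw [Finset.prod_congr rfl (g := fun _ => p)]
      · simp
      · intro i hi
        rw [if_neg]
        exact Finset.disjoint_left.mp hd hi
    · simp
  · rw [if_neg hd]
    obtain ⟨i, hi, hA⟩ := Finset.not_disjoint_iff.mp hd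
    rw [Finset.prod_eq_zero hi (by simp [hA]), zero_mul]

lemma wt_sum (p : ℝ) (U : Finset V) : ∑ X ∈ U.powerset, wt p U X = 1 := by
  have := wt_disjoint p U (∅ : Finset V)
  simpa using this

lemma wt_card (p : ℝ) (U : Finset V) : ∑ X ∈ U.powerset, wt p U X * (X.card : ℝ) = p * U.card := by
  have h1 : ∀ X ∈ U.powerset, wt p U X * (X.card : ℝ) =
      ∑ v ∈ U, (wt p U X - if Disjoint X {v} then wt p U X else 0) := by
    intro X hX
    rw [Finset.mem_powerset] at hX
    have : ∀ v ∈ U, (wt p U X - if Disjoint X {v} then wt p U X else 0) =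
        if v ∈ X then wt p U X else 0 := by
      intro v _
      by_cases hv : v ∈ X <;> simp [hv]
    rw [Finset.sum_congr rfl this, ← Finset.sum_filter, Finset.sum_const, nsmul_eq_mul, mul_comm]
    congr 3
    ext x
    simp only [Finset.mem_filter]
    exact ⟨fun h => ⟨hX h, h⟩, fun h => h.2⟩
  rw [Finset.sum_congr rfl h1, Finset.sum_comm]
  have h2 : ∀ v ∈ U, ∑ X ∈ U.powerset, (wt p U X - if Disjoint X {v} then wt p U X else 0) = p := by
    intro v hv
    rw [Finset.sum_sub_distrib, wt_sum, wt_disjoint]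
    have : U ∩ {v} = {v} := by
      ext x; simp only [Finset.mem_inter, Finset.mem_singleton]
      exact ⟨fun h => h.2, fun h => ⟨h ▸ hv, h⟩⟩
    rw [this]; simp
  rw [Finset.sum_congr rfl h2, Finset.sum_const, nsmul_eq_mul, mul_comm]

lemma wt_pos (p : ℝ) (hp0 : 0 < p) (hp1 : p < 1) (U X : Finset V) : 0 < wt p U X := by
  unfold wt
  have : 0 < 1 - p := by linarith
  positivity

end prob

section analytic

/-- Pade lower bound for the logarithm. -/
lemma log_pade (x : ℝ) (hx : 1 ≤ x) : 3 * (x ^ 2 - 1) / (x ^ 2 + 4 * x + 1) ≤ Real.log x := by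
  have key : MonotoneOn (fun y : ℝ => Real.log y - 3 * (y ^ 2 - 1) / (y ^ 2 + 4 * y + 1))
      (Set.Ici 1) := by
    apply monotoneOn_of_deriv_nonneg (convex_Ici 1)
    · apply ContinuousOn.sub
      · apply Real.continuousOn_log.mono
        intro y hy
        simp only [Set.mem_Ici] at hy
        simp only [Set.mem_compl_iff, Set.mem_singleton_iff]
        linarith
      · apply ContinuousOn.div
        · fun_prop
        · fun_prop
        · intro y hy
          simp only [Set.mem_Ici] at hy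
          positivity
    · intro y hy
      simp only [interior_Ici, Set.mem_Ioi] at hy
      apply DifferentiableAt.differentiableWithinAt
      apply DifferentiableAt.sub
      · exact Real.differentiableAt_log (by linarith)
      · apply DifferentiableAt.div
        · fun_prop
        · fun_prop
        · positivity
    · intro y hy
      simp only [interior_Ici, Set.mem_Ioi] at hy
      have hy0 : y ≠ 0 := by linarith
      have hD : y ^ 2 + 4 * y + 1 ≠ 0 := by positivity
      have h1 : HasDerivAt (fun y : ℝ => Real.log y - 3 * (y ^ 2 - 1) / (y ^ 2 + 4 * y + 1))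
          (y⁻¹ - ((3 * (2 * y)) * (y ^ 2 + 4 * y + 1) - (3 * (y ^ 2 - 1)) * (2 * y + 4)) /
            (y ^ 2 + 4 * y + 1) ^ 2) y := by
        apply HasDerivAt.sub (Real.hasDerivAt_log hy0)
        apply HasDerivAt.div
        · have := ((hasDerivAt_pow 2 y).sub_const 1).const_mul 3
          simpa using this
        · have := (((hasDerivAt_pow 2 y).add ((hasDerivAt_id y).const_mul 4)).add_const 1)
          simpa using this
        · exact hD
      rw [h1.deriv]
      have : y⁻¹ - ((3 * (2 * y)) * (y ^ 2 + 4 * y + 1) - (3 * (y ^ 2 - 1)) * (2 * y + 4)) /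
            (y ^ 2 + 4 * y + 1) ^ 2 = (y - 1) ^ 4 / (y * (y ^ 2 + 4 * y + 1) ^ 2) := by
        field_simp
        ring
      rw [this]
      have : 0 < y := by linarith
      positivity
  have h := key (Set.mem_Ici.mpr (le_refl (1 : ℝ))) (Set.mem_Ici.mpr hx) hx
  simp only [Real.log_one] at h
  norm_num at h
  linarith

lemma pow_interp (y : ℝ) (hy : 0 < y) (a b d : ℕ) (hab : a < b) (had : a ≤ d) (hdb : d ≤ b) :
    ((b : ℝ) - a) * y ^ d ≤ ((b : ℝ) - d) * y ^ a + ((d : ℝ) - a) * y ^ b := by
  have hab' : (0 : ℝ) < (b : ℝ) - a := by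
    have : (a : ℝ) < b := by exact_mod_cast hab
    linarith
  have had' : (0 : ℝ) ≤ (d : ℝ) - a := by
    have : (a : ℝ) ≤ d := by exact_mod_cast had
    linarith
  have hdb' : (0 : ℝ) ≤ (b : ℝ) - d := by
    have : (d : ℝ) ≤ b := by exact_mod_cast hdb
    linarith
  have key := convexOn_exp.2 (Set.mem_univ ((a : ℝ) * Real.log y))
    (Set.mem_univ ((b : ℝ) * Real.log y))
    (show (0 : ℝ) ≤ ((b : ℝ) - (d : ℝ)) / ((b : ℝ) - (a : ℝ)) by positivity)
    (show (0 : ℝ) ≤ ((d : ℝ) - (a : ℝ)) / ((b : ℝ) - (a : ℝ)) by positivity)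
    (by field_simp; ring)
  have e1 : ∀ k : ℕ, Real.exp ((k : ℝ) * Real.log y) = y ^ k := by
    intro k
    rw [Real.exp_nat_mul, Real.exp_log hy]
  have e2 : (((b : ℝ) - (d : ℝ)) / ((b : ℝ) - (a : ℝ))) • ((a : ℝ) * Real.log y) +
      (((d : ℝ) - (a : ℝ)) / ((b : ℝ) - (a : ℝ))) • ((b : ℝ) * Real.log y) =
      (d : ℝ) * Real.log y := by
    simp only [smul_eq_mul]
    field_simp
    ring
  rw [e2, e1, e1, e1] at key
  simp only [smul_eq_mul] at key
  have h3 := mul_le_mul_of_nonneg_left key hab'.le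
  have h4 : ((b : ℝ) - a) * (((b : ℝ) - d) / ((b : ℝ) - a) * y ^ a +
      ((d : ℝ) - a) / ((b : ℝ) - a) * y ^ b) =
      ((b : ℝ) - d) * y ^ a + ((d : ℝ) - a) * y ^ b := by
    field_simp
  linarith

variable (D : ℕ)

noncomputable def pp : ℝ := Real.log D / D
noncomputable def qq : ℝ := ((D : ℝ) - 1 - Real.log D) / (D : ℝ) ^ 2

lemma log_ge_one (hD : 3 ≤ D) : 1 ≤ Real.log D := by
  rw [Real.le_log_iff_exp_le (by positivity)]
  have := Real.exp_one_lt_d9
  have h3 : (3 : ℝ) ≤ D := by exact_mod_cast hD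
  linarith

lemma log_le (hD : 3 ≤ D) : Real.log D ≤ (D : ℝ) - 1 := by
  apply Real.log_le_sub_one_of_pos
  positivity

lemma pp_pos (hD : 3 ≤ D) : 0 < pp D := by
  have := log_ge_one D hD
  have h3 : (3 : ℝ) ≤ D := by exact_mod_cast hD
  unfold pp
  positivity

lemma pp_lt (hD : 3 ≤ D) : pp D < 1 := by
  have := log_le D hD
  have h3 : (3 : ℝ) ≤ D := by exact_mod_cast hD
  unfold pp
  rw [div_lt_one (by linarith)]
  linarith

lemma anA (hD : 3 ≤ D) : pp D + (1 - pp D) ^ 2 ≤ 1 - 2 * qq D := by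
  have h1 := log_ge_one D hD
  have h2 := log_le D hD
  have h3 : (3 : ℝ) ≤ D := by exact_mod_cast hD
  have h4 := log_pade (D : ℝ) (by linarith)
  unfold pp qq
  set x : ℝ := (D : ℝ)
  set t := Real.log x
  have hx : 0 < x := by linarith
  set u := 3 * (x ^ 2 - 1) / (x ^ 2 + 4 * x + 1) with hu
  have hDn : 0 < x ^ 2 + 4 * x + 1 := by positivity
  have hu3 : u ≤ 3 := by
    rw [hu, div_le_iff₀ hDn]
    nlinarith
  have hg : 0 ≤ u * x - u ^ 2 - 2 * x + 2 + 2 * u := by
    have : u * x - u ^ 2 - 2 * x + 2 + 2 * u =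
        (x ^ 5 - 5 * x ^ 4 + 4 * x ^ 3 + 26 * x ^ 2 - 13 * x - 13) /
          (x ^ 2 + 4 * x + 1) ^ 2 := by
      rw [hu]
      field_simp
      ring
    rw [this]
    apply div_nonneg _ (by positivity)
    obtain ⟨s, hs⟩ : ∃ s, x = 3 + s := ⟨x - 3, by ring⟩
    have hs0 : 0 ≤ s := by linarith
    rw [hs]
    have : (3 + s) ^ 5 - 5 * (3 + s) ^ 4 + 4 * (3 + s) ^ 3 + 26 * (3 + s) ^ 2 - 13 * (3 + s) - 13
        = s ^ 5 + 10 * s ^ 4 + 34 * s ^ 3 + 62 * s ^ 2 + 116 * s + 128 := by ring
    rw [this]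
    positivity
  have hg2 : 0 ≤ t * x - t ^ 2 - 2 * x + 2 + 2 * t := by
    nlinarith [mul_nonneg (sub_nonneg.mpr h4) (show (0 : ℝ) ≤ x - (t + u) + 2 by linarith)]
  have e : 1 - 2 * ((x - 1 - t) / x ^ 2) - (t / x + (1 - t / x) ^ 2) =
      (t * x - t ^ 2 - 2 * x + 2 + 2 * t) / x ^ 2 := by
    field_simp
    ring
  have : 0 ≤ (t * x - t ^ 2 - 2 * x + 2 + 2 * t) / x ^ 2 := by positivity
  linarith

lemma pow_pp (hD : 3 ≤ D) : (1 - pp D) ^ D ≤ 1 / (D : ℝ) := by
  have h3 : (3 : ℝ) ≤ D := by exact_mod_cast hD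
  have h6 : 1 - pp D ≤ Real.exp (- pp D) := by
    have := Real.add_one_le_exp (- pp D)
    linarith
  have h7 : (1 - pp D) ^ D ≤ (Real.exp (- pp D)) ^ D :=
    pow_le_pow_left₀ (by have := pp_lt D hD; linarith) h6 D
  rw [← Real.exp_nat_mul] at h7
  have h8 : (D : ℝ) * (- pp D) = - Real.log D := by
    unfold pp
    field_simp
  rw [h8, Real.exp_neg, Real.exp_log (by linarith)] at h7
  rw [one_div]
  exact h7

lemma anB (hD : 3 ≤ D) : pp D + (1 - pp D) ^ D ≤ 1 - qq D * D := by
  have h1 := log_ge_one D hD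
  have h2 := log_le D hD
  have h3 : (3 : ℝ) ≤ D := by exact_mod_cast hD
  have h5 := pow_pp D hD
  have h9 : 1 - qq D * D = (1 + Real.log D) / D := by
    unfold qq
    field_simp
    ring
  have h10 : pp D + 1 / D = (1 + Real.log D) / D := by
    unfold pp
    field_simp
    ring
  linarith

lemma anC (hD : 3 ≤ D) : 1 - pp D ≤ 1 - 3 * qq D := by
  have h1 := log_ge_one D hD
  have h2 := log_le D hD
  have h3 : (3 : ℝ) ≤ D := by exact_mod_cast hD
  have h4 := log_pade (D : ℝ) (by linarith)
  unfold pp qq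
  set x : ℝ := (D : ℝ)
  set t := Real.log x
  have hx : 0 < x := by linarith
  have hDn : 0 < x ^ 2 + 4 * x + 1 := by positivity
  rw [div_le_iff₀ hDn] at h4
  have h5 : 3 * (x - 1) ≤ t * (x + 3) := by
    by_contra hcon
    push Not at hcon
    have h6 : 3 * (x ^ 2 - 1) * (x + 3) ≤ t * (x + 3) * (x ^ 2 + 4 * x + 1) := by nlinarith
    have h7 : t * (x + 3) * (x ^ 2 + 4 * x + 1) < 3 * (x - 1) * (x ^ 2 + 4 * x + 1) := by
      apply mul_lt_mul_of_pos_right hcon hDn
    nlinarith
  have e : (1 - 3 * ((x - 1 - t) / x ^ 2)) - (1 - t / x) =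
      (t * (x + 3) - 3 * (x - 1)) / x ^ 2 := by
    field_simp
    ring
  have : 0 ≤ (t * (x + 3) - 3 * (x - 1)) / x ^ 2 := by
    apply div_nonneg _ (by positivity)
    linarith
  linarith

lemma anE (hD : 3 ≤ D) : qq D * (D + 2) ≤ 1 := by
  have h1 := log_ge_one D hD
  have h2 := log_le D hD
  have h3 : (3 : ℝ) ≤ D := by exact_mod_cast hD
  unfold qq
  rw [div_mul_eq_mul_div, div_le_one (by positivity)]
  nlinarith

lemma anD (hD : 3 ≤ D) : (1 - pp D) ^ (D - 1) ≤ 1 - qq D * (D + 1) := by
  have h1 := log_ge_one D hD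
  have h2 := log_le D hD
  have h3 : (3 : ℝ) ≤ D := by exact_mod_cast hD
  have h5 := pow_pp D hD
  have h6 := pp_lt D hD
  obtain ⟨k, rfl⟩ : ∃ k, D = k + 1 := ⟨D - 1, by omega⟩
  rw [Nat.add_sub_cancel, ]
  rw [pow_succ] at h5
  have e1 : 1 - pp (k + 1) = (((k + 1 : ℕ) : ℝ) - Real.log ((k + 1 : ℕ) : ℝ)) /
      ((k + 1 : ℕ) : ℝ) := by
    unfold pp
    field_simp
  have e3 : 1 - qq (k + 1) * (((k + 1 : ℕ) : ℝ) + 1) =
      (1 + Real.log ((k + 1 : ℕ) : ℝ) * (((k + 1 : ℕ) : ℝ) + 1)) / ((k + 1 : ℕ) : ℝ) ^ 2 := by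
    unfold qq
    field_simp
    ring
  rw [e3]
  set y := (1 - pp (k + 1)) ^ k
  rw [e1] at h5
  set x : ℝ := ((k + 1 : ℕ) : ℝ)
  set t := Real.log x
  have hx : 0 < x := by linarith
  have h7 : y * (x - t) ≤ 1 := by
    have : y * ((x - t) / x) * x ≤ 1 / x * x := mul_le_mul_of_nonneg_right h5 hx.le
    have e4 : y * ((x - t) / x) * x = y * (x - t) := by field_simp
    have e5 : 1 / x * x = 1 := by field_simp
    linarith
  have h8 : 0 < x - t := by linarith
  have h9 : y ≤ 1 / (x - t) := by
    rw [le_div_iff₀ h8]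
    exact h7
  refine h9.trans ?_
  rw [div_le_div_iff₀ h8 (by positivity)]
  have h10 : 0 ≤ (t - 1) * x * (x - 1 - t) := by
    apply mul_nonneg
    · apply mul_nonneg
      · linarith
      · exact hx.le
    · linarith
  have h11 : 0 ≤ t * (x - t - 1) := by
    apply mul_nonneg <;> linarith
  nlinarith

lemma qq_nonneg (hD : 3 ≤ D) : 0 ≤ qq D := by
  have h2 := log_le D hD
  unfold qq
  apply div_nonneg _ (by positivity)
  linarith

lemma localU (hD : 3 ≤ D) (d : ℕ) (h2 : 2 ≤ d) (hd : d ≤ D) :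
    pp D + (1 - pp D) ^ d ≤ 1 - qq D * d := by
  have hy : 0 < 1 - pp D := by have := pp_lt D hD; linarith
  have h := pow_interp (1 - pp D) hy 2 D d (by omega) h2 hd
  have hA := anA D hD
  have hB := anB D hD
  have h3 : (3 : ℝ) ≤ D := by exact_mod_cast hD
  have h4 : (2 : ℝ) ≤ d := by exact_mod_cast h2
  have h5 : (d : ℝ) ≤ D := by exact_mod_cast hd
  push_cast at h
  have h6 : ((D : ℝ) - d) * (1 - pp D) ^ 2 ≤ ((D : ℝ) - d) * (1 - 2 * qq D - pp D) :=
    mul_le_mul_of_nonneg_left (by linarith) (by linarith)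
  have h7 : ((d : ℝ) - 2) * (1 - pp D) ^ D ≤ ((d : ℝ) - 2) * (1 - qq D * D - pp D) :=
    mul_le_mul_of_nonneg_left (by linarith) (by linarith)
  have h8 : ((D : ℝ) - 2) * (1 - pp D) ^ d ≤ ((D : ℝ) - 2) * (1 - qq D * d - pp D) := by
    refine h.trans ((add_le_add h6 h7).trans (le_of_eq ?_))
    ring
  have h9 := le_of_mul_le_mul_left h8 (by linarith)
  linarith

lemma localZ (hD : 3 ≤ D) (d j : ℕ) (hj1 : 1 ≤ j) (hjd : j ≤ d) (h2 : 2 ≤ d) (hd : d ≤ D) :
    (1 - pp D) ^ (d - j) ≤ j - qq D * (d + j) := by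
  have hy : 0 < 1 - pp D := by have := pp_lt D hD; linarith
  have hp := pp_pos D hD
  have hq := qq_nonneg D hD
  have h3 : (3 : ℝ) ≤ D := by exact_mod_cast hD
  have h4 : (2 : ℝ) ≤ d := by exact_mod_cast h2
  have h5 : (d : ℝ) ≤ D := by exact_mod_cast hd
  rcases Nat.lt_or_ge j 2 with hj | hj
  · have hj' : j = 1 := by omega
    subst hj'
    have h := pow_interp (1 - pp D) hy 1 (D - 1) (d - 1) (by omega) (by omega) (by omega)
    have hC := anC D hD
    have hDd := anD D hD
    rw [Nat.cast_sub (by omega : 1 ≤ D), Nat.cast_sub (by omega : 1 ≤ d)] at h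
    push_cast at h ⊢
    have h6 : ((D : ℝ) - d) * (1 - pp D) ≤ ((D : ℝ) - d) * (1 - 3 * qq D) :=
      mul_le_mul_of_nonneg_left (by linarith) (by linarith)
    have h7 : ((d : ℝ) - 2) * (1 - pp D) ^ (D - 1) ≤ ((d : ℝ) - 2) * (1 - qq D * (D + 1)) :=
      mul_le_mul_of_nonneg_left (by linarith) (by linarith)
    have h8 : ((D : ℝ) - 2) * (1 - pp D) ^ (d - 1) ≤
        ((D : ℝ) - 2) * (1 - qq D * ((d : ℝ) + 1)) := by
      have e1 : ((D : ℝ) - 1 - 1) = (D : ℝ) - 2 := by ring
      have e2 : ((D : ℝ) - 1 - ((d : ℝ) - 1)) = (D : ℝ) - d := by ring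
      have e3 : ((d : ℝ) - 1 - 1) = (d : ℝ) - 2 := by ring
      rw [e1, e2, e3, pow_one] at h
      refine h.trans ((add_le_add h6 h7).trans (le_of_eq ?_))
      ring
    exact le_of_mul_le_mul_left h8 (by linarith)
  · have h6 : (1 - pp D) ^ (d - j) ≤ 1 := pow_le_one₀ hy.le (by linarith)
    have h7 : (2 : ℝ) ≤ j := by exact_mod_cast hj
    have hE := anE D hD
    have h8 : qq D ≤ 1 := by nlinarith
    have h9 : 0 ≤ ((j : ℝ) - 2) * (1 - qq D) := mul_nonneg (by linarith) (by linarith)
    have h10 : qq D * d ≤ qq D * D := mul_le_mul_of_nonneg_left h5 hq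
    nlinarith

end analytic

section graph

variable {V : Type} [Fintype V] [DecidableEq V] (G : SimpleGraph V) [DecidableRel G.Adj]

omit [Fintype V] [DecidableEq V] [DecidableRel G.Adj] in
lemma closed_all (hconn : G.Connected) (P : V → Prop) (a : V) (ha : P a)
    (hstep : ∀ x y, P x → G.Adj x y → P y) : ∀ w, P w := by
  intro w
  obtain ⟨p⟩ := hconn.preconnected a w
  induction p with
  | nil => exact ha
  | cons h p ih => exact ih (hstep _ _ ha h)

lemma leaf_nbr (hconn : G.Connected) (hn : 3 ≤ Fintype.card V) (u v : V) (hu : G.degree u = 1)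
    (huv : G.Adj u v) : G.degree v ≠ 1 := by
  intro hv
  have hun : ∀ y, G.Adj u y → y = v := by
    intro y hy
    rw [← SimpleGraph.card_neighborFinset_eq_degree, Finset.card_eq_one] at hu
    obtain ⟨c, hc⟩ := hu
    have h1 : y ∈ G.neighborFinset u := by rwa [SimpleGraph.mem_neighborFinset]
    have h2 : v ∈ G.neighborFinset u := by rwa [SimpleGraph.mem_neighborFinset]
    rw [hc, Finset.mem_singleton] at h1 h2
    rw [h1, h2]
  have hvn : ∀ y, G.Adj v y → y = u := by
    intro y hy
    rw [← SimpleGraph.card_neighborFinset_eq_degree, Finset.card_eq_one] at hv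
    obtain ⟨c, hc⟩ := hv
    have h1 : y ∈ G.neighborFinset v := by rwa [SimpleGraph.mem_neighborFinset]
    have h2 : u ∈ G.neighborFinset v := by
      rw [SimpleGraph.mem_neighborFinset]; exact huv.symm
    rw [hc, Finset.mem_singleton] at h1 h2
    rw [h1, h2]
  have hall := closed_all G hconn (fun w => w = u ∨ w = v) u (Or.inl rfl) (by
    intro x y hx hxy
    rcases hx with rfl | rfl
    · right; exact hun y hxy
    · left; exact hvn y hxy)
  have : (univ : Finset V) ⊆ {u, v} := by
    intro w _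
    simp only [Finset.mem_insert, Finset.mem_singleton]
    exact hall w
  have h1 := Finset.card_le_card this
  have h2 : ({u, v} : Finset V).card ≤ 2 := Finset.card_le_two
  rw [Finset.card_univ] at h1
  omega

omit [DecidableEq V] in
lemma degree_pos' (hconn : G.Connected) (hn : 3 ≤ Fintype.card V) (v : V) : 1 ≤ G.degree v := by
  have : Nontrivial V := Fintype.one_lt_card_iff_nontrivial.mp (by omega)
  have := hconn.preconnected.degree_pos_of_nontrivial v
  omega

theorem exists_td (D : ℕ) (hD : 3 ≤ D) (hconn : G.Connected) (hn : 3 ≤ Fintype.card V)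
    (hdeg : ∀ v, G.degree v ≤ D) :
    ∃ S : Finset V, IsTotalDominating G S ∧
      (S.card : ℝ) ≤ (Fintype.card V : ℝ) - 2 * qq D * G.edgeFinset.card := by
  classical
  set L : Finset V := univ.filter (fun v => G.degree v = 1) with hL
  set Z : Finset V := univ.filter (fun v => v ∉ L ∧ ∃ u ∈ L, G.Adj v u) with hZ
  set U : Finset V := univ.filter (fun v => v ∉ L ∧ ¬ ∃ u ∈ L, G.Adj v u) with hU
  have memL : ∀ v, v ∈ L ↔ G.degree v = 1 := by intro v; simp [hL]
  have memZ : ∀ v, v ∈ Z ↔ v ∉ L ∧ ∃ u ∈ L, G.Adj v u := by intro v; simp [hZ]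
  have memU : ∀ v, v ∈ U ↔ v ∉ L ∧ ¬ ∃ u ∈ L, G.Adj v u := by intro v; simp [hU]
  have leafZ : ∀ v ∈ L, ∀ u, G.Adj v u → u ∈ Z := by
    intro v hv u huv
    rw [memZ, memL]
    exact ⟨leaf_nbr G hconn hn v u ((memL v).mp hv) huv, v, hv, huv.symm⟩
  have degpos := degree_pos' G hconn hn
  set p := pp D with hp
  have hp0 : 0 < p := pp_pos D hD
  have hp1 : p < 1 := pp_lt D hD
  let j : V → ℕ := fun v => (G.neighborFinset v ∩ L).card
  let Und : Finset V → Finset V :=
    fun X => univ.filter (fun v => v ∉ L ∧ ∀ u, G.Adj v u → u ∉ X ∧ u ∉ Z)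
  -- probability that a vertex is undominated
  have hprob : ∀ v, v ∉ L → ∑ X ∈ U.powerset, wt p U X * (if v ∈ Und X then 1 else 0) ≤
      (1 - p) ^ (G.degree v - j v) := by
    intro v hv
    by_cases hvZ : ∃ u ∈ Z, G.Adj v u
    · obtain ⟨u, huZ, huv⟩ := hvZ
      have : ∀ X ∈ U.powerset, wt p U X * (if v ∈ Und X then (1 : ℝ) else 0) = 0 := by
        intro X _
        rw [if_neg, mul_zero]
        intro h
        simp only [Und, Finset.mem_filter] at h
        exact (h.2.2 u huv).2 huZ
      rw [Finset.sum_eq_zero this]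
      apply pow_nonneg; linarith
    · push Not at hvZ
      have h1 : ∀ X ∈ U.powerset, wt p U X * (if v ∈ Und X then (1 : ℝ) else 0) =
          if Disjoint X (G.neighborFinset v) then wt p U X else 0 := by
        intro X _
        by_cases hd : Disjoint X (G.neighborFinset v)
        · rw [if_pos hd, if_pos, mul_one]
          simp only [Und, Finset.mem_filter, Finset.mem_univ, true_and]
          refine ⟨hv, fun u hu => ⟨fun huX => ?_, fun huZ => hvZ u huZ hu⟩⟩
          exact Finset.disjoint_left.mp hd huX (by rwa [SimpleGraph.mem_neighborFinset])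
        · rw [if_neg hd, if_neg, mul_zero]
          intro h
          simp only [Und, Finset.mem_filter, Finset.mem_univ, true_and] at h
          apply hd
          rw [Finset.disjoint_left]
          intro u huX hu
          rw [SimpleGraph.mem_neighborFinset] at hu
          exact (h.2 u hu).1 huX
      rw [Finset.sum_congr rfl h1, wt_disjoint]
      apply le_of_eq
      congr 1
      have h2 : U ∩ G.neighborFinset v = G.neighborFinset v \ (G.neighborFinset v ∩ L) := by
        ext u
        simp only [Finset.mem_inter, Finset.mem_sdiff, not_and]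
        constructor
        · rintro ⟨h3, h4⟩
          exact ⟨h4, fun _ => ((memU u).mp h3).1⟩
        · rintro ⟨h3, h4⟩
          refine ⟨?_, h3⟩
          rw [memU]
          refine ⟨h4 h3, fun h5 => ?_⟩
          rw [SimpleGraph.mem_neighborFinset] at h3
          exact hvZ u ((memZ u).mpr ⟨h4 (by rwa [SimpleGraph.mem_neighborFinset]), h5⟩) h3
      rw [h2, Finset.card_sdiff_of_subset Finset.inter_subset_left,
        SimpleGraph.card_neighborFinset_eq_degree]
  -- expectation
  set E : ℝ := p * U.card + ∑ v ∈ Z ∪ U, (1 - p) ^ (G.degree v - j v) with hE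
  have hZU : ∀ v, v ∈ Z ∪ U ↔ v ∉ L := by
    intro v
    rw [Finset.mem_union, memZ, memU]
    constructor
    · rintro (h | h) <;> exact h.1
    · intro h
      by_cases h' : ∃ u ∈ L, G.Adj v u
      · exact Or.inl ⟨h, h'⟩
      · exact Or.inr ⟨h, h'⟩
  have hexp : ∑ X ∈ U.powerset, wt p U X * ((X.card : ℝ) + (Und X).card) ≤ E := by
    have h1 : ∀ X ∈ U.powerset, wt p U X * ((X.card : ℝ) + (Und X).card) =
        wt p U X * X.card + ∑ v ∈ Z ∪ U, wt p U X * (if v ∈ Und X then 1 else 0) := by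
      intro X _
      rw [mul_add, ← Finset.mul_sum, Finset.sum_boole]
      congr 4
      ext v
      simp only [Finset.mem_filter, hZU, Und, Finset.mem_univ, true_and]
      tauto
    rw [Finset.sum_congr rfl h1, Finset.sum_add_distrib, wt_card, Finset.sum_comm, hE]
    gcongr with v hv
    exact hprob v ((hZU v).mp hv)
  obtain ⟨X, hXU, hX⟩ : ∃ X ∈ U.powerset, ((X.card : ℝ) + (Und X).card) ≤ E := by
    by_contra hcon
    push Not at hcon
    have h1 : ∑ X ∈ U.powerset, wt p U X * E <
        ∑ X ∈ U.powerset, wt p U X * ((X.card : ℝ) + (Und X).card) := by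
      apply Finset.sum_lt_sum_of_nonempty ⟨∅, by simp⟩
      intro X hX
      exact mul_lt_mul_of_pos_left (hcon X hX) (wt_pos p hp0 hp1 U X)
    rw [← Finset.sum_mul, wt_sum, one_mul] at h1
    linarith
  have hg : ∀ v : V, ∃ u, G.Adj v u := by
    intro v
    have h1 := degpos v
    rw [← SimpleGraph.card_neighborFinset_eq_degree] at h1
    obtain ⟨u, hu⟩ := Finset.card_pos.mp h1
    exact ⟨u, by rwa [SimpleGraph.mem_neighborFinset] at hu⟩
  choose g hg using hg
  refine ⟨Z ∪ X ∪ (Und X).image g, ?_, ?_⟩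
  · intro v
    by_cases hv : v ∈ L
    · exact ⟨g v, by simp [leafZ v hv (g v) (hg v)], hg v⟩
    · by_cases hu : v ∈ Und X
      · exact ⟨g v, by
          apply Finset.mem_union_right
          exact Finset.mem_image_of_mem g hu, hg v⟩
      · simp only [Und, Finset.mem_filter, Finset.mem_univ, true_and, not_and, not_forall] at hu
        obtain ⟨u, huv, hu⟩ := hu hv
        refine ⟨u, ?_, huv⟩
        apply Finset.mem_union_left
        rw [Finset.mem_union]
        by_cases h1 : u ∈ X
        · right; exact h1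
        · left
          by_contra h2
          exact hu h1 h2
  · have hc1 : ((Z ∪ X ∪ (Und X).image g).card : ℝ) ≤ Z.card + (X.card + (Und X).card) := by
      have h1 : (Z ∪ X ∪ (Und X).image g).card ≤ Z.card + X.card + (Und X).card :=
        (Finset.card_union_le _ _).trans
          (add_le_add (Finset.card_union_le _ _) Finset.card_image_le)
      have h2 : ((Z ∪ X ∪ (Und X).image g).card : ℝ) ≤ ((Z.card + X.card + (Und X).card : ℕ) : ℝ) :=
        by exact_mod_cast h1
      push_cast at h2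
      linarith
    have hdis : Disjoint Z U := by
      rw [Finset.disjoint_left]
      intro v hv hv'
      exact ((memU v).mp hv').2 ((memZ v).mp hv).2
    -- degrees
    have hdeg2 : ∀ v, v ∉ L → 2 ≤ G.degree v := by
      intro v hv
      have h1 := degpos v
      have h2 : G.degree v ≠ 1 := fun h => hv ((memL v).mpr h)
      omega
    have hjU : ∀ v ∈ U, j v = 0 := by
      intro v hv
      simp only [j, Finset.card_eq_zero]
      rw [Finset.eq_empty_iff_forall_notMem]
      intro u hu
      rw [Finset.mem_inter, SimpleGraph.mem_neighborFinset] at hu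
      exact ((memU v).mp hv).2 ⟨u, hu.2, hu.1⟩
    have hjZ : ∀ v ∈ Z, 1 ≤ j v := by
      intro v hv
      obtain ⟨u, hu, huv⟩ := ((memZ v).mp hv).2
      exact Finset.card_pos.mpr ⟨u, by
        rw [Finset.mem_inter, SimpleGraph.mem_neighborFinset]; exact ⟨huv, hu⟩⟩
    have hjd : ∀ v, j v ≤ G.degree v := by
      intro v
      rw [← SimpleGraph.card_neighborFinset_eq_degree]
      exact Finset.card_le_card Finset.inter_subset_left
    have hsumj : ∑ v ∈ Z, j v = L.card := by
      have h1 : ∑ v ∈ Z, j v = ∑ v ∈ Z, ∑ u ∈ L, if G.Adj v u then 1 else 0 := by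
        apply Finset.sum_congr rfl
        intro v _
        rw [Finset.sum_boole]
        simp only [j, Nat.cast_id]
        congr 1
        ext u
        simp only [Finset.mem_inter, SimpleGraph.mem_neighborFinset, Finset.mem_filter]
        tauto
      rw [h1, Finset.sum_comm]
      have h2 : ∀ u ∈ L, ∑ v ∈ Z, (if G.Adj v u then 1 else 0) = 1 := by
        intro u hu
        rw [Finset.sum_boole]
        simp only [Nat.cast_id]
        have h3 : Z.filter (fun v => G.Adj v u) = G.neighborFinset u := by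
          ext v
          simp only [Finset.mem_filter, SimpleGraph.mem_neighborFinset]
          constructor
          · rintro ⟨_, h⟩; exact h.symm
          · intro h; exact ⟨leafZ u hu v h, h.symm⟩
        rw [h3, SimpleGraph.card_neighborFinset_eq_degree]
        exact (memL u).mp hu
      rw [Finset.sum_congr rfl h2]
      simp
    have hq := qq_nonneg D hD
    -- local inequalities
    have hlocU : ∀ v ∈ U, p + (1 - p) ^ (G.degree v - j v) ≤ 1 - qq D * G.degree v := by
      intro v hv
      rw [hjU v hv, Nat.sub_zero]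
      exact localU D hD _ (hdeg2 v ((memU v).mp hv).1) (hdeg v)
    have hlocZ : ∀ v ∈ Z, 1 + (1 - p) ^ (G.degree v - j v) ≤
        1 - qq D * G.degree v + (1 - qq D) * j v := by
      intro v hv
      have := localZ D hD _ _ (hjZ v hv) (hjd v) (hdeg2 v ((memZ v).mp hv).1) (hdeg v)
      linarith
    have hsU := Finset.sum_le_sum hlocU
    have hsZ := Finset.sum_le_sum hlocZ
    rw [Finset.sum_add_distrib, Finset.sum_const, nsmul_eq_mul] at hsU
    rw [Finset.sum_add_distrib, Finset.sum_const, nsmul_eq_mul, Finset.sum_add_distrib,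
      ← Finset.mul_sum, ← Nat.cast_sum, hsumj] at hsZ
    rw [Finset.sum_sub_distrib, Finset.sum_const, nsmul_eq_mul, ← Finset.mul_sum] at hsU hsZ
    rw [hE, Finset.sum_union hdis] at hX
    -- totals
    have hpart : (univ : Finset V) = L ∪ (Z ∪ U) := by
      ext v
      simp only [Finset.mem_univ, true_iff]
      rw [Finset.mem_union, hZU]
      tauto
    have hdisL : Disjoint L (Z ∪ U) := by
      rw [Finset.disjoint_left]
      intro v hv hv'
      exact (hZU v).mp hv' hv
    have hcard : (Fintype.card V : ℝ) = L.card + (Z.card + U.card) := by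
      rw [← Finset.card_univ, hpart, Finset.card_union_of_disjoint hdisL,
        Finset.card_union_of_disjoint hdis]
      push_cast; ring
    have hdegsum : (2 * G.edgeFinset.card : ℝ) =
        L.card + (∑ v ∈ Z, (G.degree v : ℝ) + ∑ v ∈ U, (G.degree v : ℝ)) := by
      have h1 : ∑ v, G.degree v = 2 * G.edgeFinset.card := G.sum_degrees_eq_twice_card_edges
      have h2 : ∑ v, G.degree v = L.card + (∑ v ∈ Z, G.degree v + ∑ v ∈ U, G.degree v) := by
        rw [hpart, Finset.sum_union hdisL, Finset.sum_union hdis]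
        congr 1
        rw [Finset.sum_congr rfl (fun v hv => (memL v).mp hv)]
        simp
      rw [h1] at h2
      have h3 : ((2 * G.edgeFinset.card : ℕ) : ℝ) =
        ((L.card + (∑ v ∈ Z, G.degree v + ∑ v ∈ U, G.degree v) : ℕ) : ℝ) := by rw [h2]
      push_cast at h3
      exact h3
    have e1 : 2 * qq D * (G.edgeFinset.card : ℝ) = qq D * (2 * G.edgeFinset.card : ℝ) := by ring
    rw [e1, hdegsum, hcard]
    nlinarith

end graph

/-- Every total dominating set has at least `gammaT` elements. -/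
lemma gammaT_le {V : Type} (G : SimpleGraph V) (S : Finset V) (hS : IsTotalDominating G S) :
    gammaT G ≤ S.card :=
  Nat.sInf_le ⟨S, hS, rfl⟩

/-- For a connected graph of order at least three `gammaT` is attained. -/
lemma gammaT_attained {V : Type} [Fintype V] [DecidableEq V] (G : SimpleGraph V)
    [DecidableRel G.Adj] (hconn : G.Connected) (hn : 3 ≤ Fintype.card V) :
    ∃ S : Finset V, IsTotalDominating G S ∧ S.card = gammaT G := by
  have hne : {k : ℕ | ∃ S : Finset V, IsTotalDominating G S ∧ S.card = k}.Nonempty := by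
    refine ⟨_, Finset.univ, fun v => ?_, rfl⟩
    have h1 := degree_pos' G hconn hn v
    rw [← SimpleGraph.card_neighborFinset_eq_degree] at h1
    obtain ⟨u, hu⟩ := Finset.card_pos.mp h1
    exact ⟨u, Finset.mem_univ u, by rwa [SimpleGraph.mem_neighborFinset] at hu⟩
  exact Nat.sInf_mem hne

lemma gammaT_le_card {V : Type} [Fintype V] [DecidableEq V] (G : SimpleGraph V)
    [DecidableRel G.Adj] (hconn : G.Connected) (hn : 3 ≤ Fintype.card V) :
    gammaT G ≤ Fintype.card V := by
  obtain ⟨S, _, hS⟩ := gammaT_attained G hconn hn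
  rw [← hS]
  exact Finset.card_le_univ S

lemma upper_admissible (D : ℕ) (hD : 3 ≤ D) :
    Admissible D ((D : ℝ) * (1 + Real.log D) / ((D : ℝ) - 1 - Real.log D)) := by
  intro V _ _ G _ hconn hn hdeg
  obtain ⟨S, hS, hcard⟩ := exists_td G D hD hconn hn hdeg
  have h1 : (gammaT G : ℝ) ≤ S.card := by exact_mod_cast gammaT_le G S hS
  have h3 : (3 : ℝ) ≤ D := by exact_mod_cast hD
  have h4 : Real.log D < (D : ℝ) - 1 := by
    apply Real.log_lt_sub_one_of_pos (by linarith)
    linarith
  have h5 : (0 : ℝ) < (D : ℝ) - 1 - Real.log D := by linarith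
  have h6 : 1 / 2 * ((D : ℝ) + (D : ℝ) * (1 + Real.log D) / ((D : ℝ) - 1 - Real.log D)) =
      (D : ℝ) ^ 2 / (2 * ((D : ℝ) - 1 - Real.log D)) := by
    field_simp
    ring
  rw [h6]
  have h7 : 2 * qq D * G.edgeFinset.card ≤ (Fintype.card V : ℝ) - gammaT G := by linarith
  have h8 : (G.edgeFinset.card : ℝ) =
      (D : ℝ) ^ 2 / (2 * ((D : ℝ) - 1 - Real.log D)) * (2 * qq D * G.edgeFinset.card) := by
    unfold qq
    field_simp
  rw [h8]
  apply mul_le_mul_of_nonneg_left h7
  positivity

lemma neg_le_of_admissible (D : ℕ) (hD : 3 ≤ D) (r : ℝ) (hr : Admissible D r) : -(D : ℝ) ≤ r := by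
  have hconn : (⊤ : SimpleGraph (Fin 3)).Connected := SimpleGraph.connected_top
  have h := hr (Fin 3) ⊤ hconn (by simp) (by intro v; simp; omega)
  have hle := gammaT_le_card (⊤ : SimpleGraph (Fin 3)) hconn (by simp)
  have hle' : (gammaT (⊤ : SimpleGraph (Fin 3)) : ℝ) ≤ (Fintype.card (Fin 3) : ℝ) := by
    exact_mod_cast hle
  have hm : 0 < ((⊤ : SimpleGraph (Fin 3)).edgeFinset.card : ℝ) := by
    have : 0 < (⊤ : SimpleGraph (Fin 3)).edgeFinset.card := by
      rw [Finset.card_pos]
      exact ⟨s(0, 1), by simp⟩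
    exact_mod_cast this
  by_contra hcon
  push Not at hcon
  have h2 : 1 / 2 * ((D : ℝ) + r) * ((Fintype.card (Fin 3) : ℝ) -
      gammaT (⊤ : SimpleGraph (Fin 3))) ≤ 0 := by
    apply mul_nonpos_of_nonpos_of_nonneg
    · linarith
    · linarith
  linarith

/-- The least admissible `r` exists for every `D ≥ 3`. -/
lemma isLeast_sInf (D : ℕ) (hD : 3 ≤ D) :
    IsLeast {r : ℝ | Admissible D r} (sInf {r : ℝ | Admissible D r}) := by
  have hbdd : BddBelow {r : ℝ | Admissible D r} :=
    ⟨-(D : ℝ), fun r hr => neg_le_of_admissible D hD r hr⟩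
  refine ⟨?_, fun r hr => csInf_le hbdd hr⟩
  intro V _ _ G _ hconn hn hdeg
  have hle : (gammaT G : ℝ) ≤ Fintype.card V := by
    exact_mod_cast gammaT_le_card G hconn hn
  have hup := upper_admissible D hD
  rcases eq_or_lt_of_le hle with heq | hlt
  · have h1 := hup V G hconn hn hdeg
    rw [heq, sub_self, mul_zero] at h1 ⊢
    exact h1
  · have hpos : 0 < (Fintype.card V : ℝ) - gammaT G := by linarith
    have h1 : 2 * (G.edgeFinset.card : ℝ) / ((Fintype.card V : ℝ) - gammaT G) - D ≤
        sInf {r : ℝ | Admissible D r} := by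
      apply le_csInf ⟨_, hup⟩
      intro r hr
      have h2 := hr V G hconn hn hdeg
      rw [sub_le_iff_le_add, div_le_iff₀ hpos]
      linarith
    rw [sub_le_iff_le_add, div_le_iff₀ hpos] at h1
    linarith

/-- For every `D ≥ 3` the least admissible real `r_D` exists and
`r_D ≤ D (1 + ln D) / (D - 1 - ln D)`. -/
theorem result (D : ℕ) (hD : 3 ≤ D) :
    ∃ r : ℝ, IsLeast {r : ℝ | Admissible D r} r ∧
      r ≤ (D : ℝ) * (1 + Real.log D) / ((D : ℝ) - 1 - Real.log D) :=
  ⟨_, isLeast_sInf D hD, (isLeast_sInf D hD).2 (upper_admissible D hD)⟩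

end Pool.Agent.Results.MP_6659c6_co.LogUpper
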